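import Pool.Agent.helper79.EPT.Spec
import Pool.Agent.helper51.JT.BT

/-! Row BTS of project EPT: Brun-Titchmarsh, summed. -/

set_option autoImplicit false
set_option linter.unusedVariables false

open scoped Classical

namespace Pool.Agent.EPT

open Finset

lemma BTS_HH_nonneg (a b : ℕ) : 0 ≤ HH a b := by
  unfold HH
  exact sum_nonneg fun i _ => by positivity

lemma BTS_HH_succ {a n : ℕ} (h : a ≤ n) : HH a (n + 1) = HH a n + 1 / (n : ℝ) := by
  unfold HH
  rw [sum_Ico_succ_top h]

/-- one dyadic block -/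
lemma BTS_block {C₁ : ℝ} {X₁ : ℕ} (hC₁ : 0 < C₁) (hBT : ∀ X ≥ X₁, ∀ d p₀ : ℕ, 1 ≤ d → d ^ 2 ≤ X →
    Nat.Coprime p₀ d → (((Nat.primesLE X).filter fun p => p ≡ p₀ [MOD d]).card : ℝ) ≤ C₁ * X / (d.totient * Real.log X))
    {W t m c c' j : ℕ} (hW : 1 ≤ W) (hm : 1 ≤ m) (hco : Nat.Coprime W m) (h1 : c' ≡ t [MOD W]) (h2 : c' ≡ c [MOD m])
    (hc' : Nat.Coprime c' (W * m)) (hj : X₁ + 1 ≤ j) (hsq : (W * m) ^ 2 ≤ 2 ^ j) :
    ∑ p ∈ (SP W t j (j + 1)).filter (fun p => p % m = c % m), 1 / (p : ℝ) ≤
      4 * C₁ * (1 / (j : ℝ)) / ((W.totient : ℝ) * (m.totient : ℝ)) := by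
  have hj0 : (0 : ℝ) < j := by
    have : 0 < j := by omega
    exact_mod_cast this
  have hφW : (0 : ℝ) < (W.totient : ℝ) := by exact_mod_cast Nat.totient_pos.mpr hW
  have hφm : (0 : ℝ) < (m.totient : ℝ) := by exact_mod_cast Nat.totient_pos.mpr hm
  have hX : 2 ^ (j + 1) ≥ X₁ := by
    have : j + 1 < 2 ^ (j + 1) := Nat.lt_two_pow_self
    omega
  have hb := hBT (2 ^ (j + 1)) hX (W * m) c' (Nat.mul_pos hW hm) (hsq.trans (Nat.pow_le_pow_right (by norm_num) (by omega))) hc'
  have hsub : (SP W t j (j + 1)).filter (fun p => p % m = c % m) ⊆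
      (Nat.primesLE (2 ^ (j + 1))).filter fun p => p ≡ c' [MOD (W * m)] := by
    intro p hp
    rw [mem_filter, SP, mem_filter, mem_Ioc] at hp
    rw [mem_filter, Nat.mem_primesLE]
    refine ⟨⟨hp.1.1.2, hp.1.2.1⟩, ?_⟩
    rw [← Nat.modEq_and_modEq_iff_modEq_mul hco]
    have h3 : p ≡ t [MOD W] := hp.1.2.2
    have h4 : p ≡ c [MOD m] := hp.2
    exact ⟨h3.trans h1.symm, h4.trans h2.symm⟩
  have hlog : Real.log ((2 ^ (j + 1) : ℕ) : ℝ) = (j + 1 : ℝ) * Real.log 2 := by
    push_cast
    rw [Real.log_pow]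
    push_cast
    ring
  have hl2 : (1 : ℝ) / 2 ≤ Real.log 2 := by
    have := Real.log_two_gt_d9
    linarith
  have hφ : ((W * m).totient : ℝ) = (W.totient : ℝ) * (m.totient : ℝ) := by
    rw [Nat.totient_mul hco]
    push_cast
    ring
  rw [hlog, hφ] at hb
  have hp2 : (0 : ℝ) < 2 ^ j := by positivity
  calc _ ≤ ∑ p ∈ (SP W t j (j + 1)).filter (fun p => p % m = c % m), 1 / (2 ^ j : ℝ) := by
        apply sum_le_sum
        intro p hp
        rw [mem_filter, SP, mem_filter, mem_Ioc] at hp
        apply one_div_le_one_div_of_le hp2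
        exact_mod_cast hp.1.1.1.le
    _ = (((SP W t j (j + 1)).filter (fun p => p % m = c % m)).card : ℝ) * (1 / (2 ^ j : ℝ)) := by
        rw [sum_const, nsmul_eq_mul]
    _ ≤ (C₁ * ((2 ^ (j + 1) : ℕ) : ℝ) / ((W.totient : ℝ) * (m.totient : ℝ) * ((j + 1 : ℝ) * Real.log 2))) * (1 / (2 ^ j : ℝ)) := by
        apply mul_le_mul_of_nonneg_right _ (by positivity)
        refine le_trans ?_ hb
        exact_mod_cast card_le_card hsub
    _ = (2 * C₁ / ((W.totient : ℝ) * (m.totient : ℝ))) * (1 / ((j + 1 : ℝ) * Real.log 2)) := by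
        push_cast
        rw [pow_succ]
        field_simp
    _ ≤ (2 * C₁ / ((W.totient : ℝ) * (m.totient : ℝ))) * (2 / (j : ℝ)) := by
        apply mul_le_mul_of_nonneg_left _ (by positivity)
        rw [div_le_div_iff₀ (by positivity) hj0]
        nlinarith
    _ = _ := by
        field_simp
        ring

theorem BTS : BTS_stmt := by
  obtain ⟨C₁, hC₁, X₁, hBT⟩ := Pool.Agent.helper7.JT.BT_aux
  refine ⟨max 1 (4 * C₁), le_max_left _ _, X₁ + 1, ?_⟩
  intro W t m c a b hW hm htW hmW ha hsq
  have hφW : (0 : ℝ) < (W.totient : ℝ) := by exact_mod_cast Nat.totient_pos.mpr hW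
  have hφm : (0 : ℝ) < (m.totient : ℝ) := by exact_mod_cast Nat.totient_pos.mpr hm
  by_cases hc : Nat.Coprime c m
  · have hco : Nat.Coprime W m := hmW.symm
    obtain ⟨c', h1, h2⟩ := Nat.chineseRemainder hco t c
    have hc' : Nat.Coprime c' (W * m) := by
      apply Nat.Coprime.mul_right
      · unfold Nat.Coprime
        rw [h1.gcd_eq]
        exact htW
      · unfold Nat.Coprime
        rw [h2.gcd_eq]
        exact hc
    have key : ∀ n : ℕ, a ≤ n → ∑ p ∈ (SP W t a n).filter (fun p => p % m = c % m), 1 / (p : ℝ) ≤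
        max 1 (4 * C₁) * HH a n / ((W.totient : ℝ) * (m.totient : ℝ)) := by
      intro n hn
      induction n, hn using Nat.le_induction with
      | base =>
        have h0 : (SP W t a a).filter (fun p => p % m = c % m) = ∅ := by
          rw [filter_eq_empty_iff]
          intro p hp
          simp [SP] at hp
        rw [h0, sum_empty]
        have := BTS_HH_nonneg a a
        positivity
      | succ n hn ih =>
        have hsub : (SP W t a (n + 1)).filter (fun p => p % m = c % m) ⊆
            (SP W t a n).filter (fun p => p % m = c % m) ∪ (SP W t n (n + 1)).filter (fun p => p % m = c % m) := by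
          intro p hp
          rw [mem_union, mem_filter, mem_filter, SP, SP, mem_filter, mem_filter, mem_Ioc, mem_Ioc]
          rw [mem_filter, SP, mem_filter, mem_Ioc] at hp
          rcases Nat.lt_or_ge (2 ^ n) p with h | h
          · exact Or.inr ⟨⟨⟨h, hp.1.1.2⟩, hp.1.2⟩, hp.2⟩
          · exact Or.inl ⟨⟨⟨hp.1.1.1, h⟩, hp.1.2⟩, hp.2⟩
        have hblock := BTS_block hC₁ hBT hW hm hco h1 h2 hc' (j := n) (by omega)
          (hsq.trans (Nat.pow_le_pow_right (by norm_num) hn))
        have hn0 : (0 : ℝ) ≤ 1 / (n : ℝ) := by positivity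
        calc _ ≤ ∑ p ∈ (SP W t a n).filter (fun p => p % m = c % m) ∪ (SP W t n (n + 1)).filter (fun p => p % m = c % m), 1 / (p : ℝ) := by
              apply sum_le_sum_of_subset_of_nonneg hsub
              intro i _ _
              positivity
          _ ≤ ∑ p ∈ (SP W t a n).filter (fun p => p % m = c % m), 1 / (p : ℝ) +
              ∑ p ∈ (SP W t n (n + 1)).filter (fun p => p % m = c % m), 1 / (p : ℝ) := by
              rw [← sum_union_inter]
              apply le_add_of_nonneg_right
              apply sum_nonneg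
              intro i _
              positivity
          _ ≤ max 1 (4 * C₁) * HH a n / ((W.totient : ℝ) * (m.totient : ℝ)) +
              max 1 (4 * C₁) * (1 / (n : ℝ)) / ((W.totient : ℝ) * (m.totient : ℝ)) := by
              apply add_le_add ih
              refine hblock.trans ?_
              apply div_le_div_of_nonneg_right _ (by positivity)
              exact mul_le_mul_of_nonneg_right (le_max_right _ _) hn0
          _ = _ := by
              rw [BTS_HH_succ hn]
              ring
    rcases Nat.le_total a b with hab | hab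
    · exact key b hab
    · have h0 : (SP W t a b).filter (fun p => p % m = c % m) = ∅ := by
        rw [filter_eq_empty_iff]
        intro p hp
        rw [SP, mem_filter, mem_Ioc] at hp
        exfalso
        have : 2 ^ b ≤ 2 ^ a := Nat.pow_le_pow_right (by norm_num) hab
        omega
      rw [h0, sum_empty]
      have := BTS_HH_nonneg a b
      positivity
  · have h0 : (SP W t a b).filter (fun p => p % m = c % m) = ∅ := by
      rw [filter_eq_empty_iff]
      intro p hp hpm
      rw [SP, mem_filter, mem_Ioc] at hp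
      apply hc
      have hgcd : Nat.gcd c m = Nat.gcd p m := (Nat.ModEq.gcd_eq (show p ≡ c [MOD m] from hpm)).symm
      unfold Nat.Coprime
      rw [hgcd]
      rcases (Nat.coprime_or_dvd_of_prime hp.2.1 m) with h | h
      · exact h
      · exfalso
        have h3 : p ≤ m := Nat.le_of_dvd hm h
        have h4 : m ≤ W * m := Nat.le_mul_of_pos_left m hW
        have h5 : W * m ≤ (W * m) ^ 2 := Nat.le_self_pow (by norm_num) _
        omega
    rw [h0, sum_empty]
    have := BTS_HH_nonneg a b
    positivity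

end Pool.Agent.EPT
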