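import Pool.Agent.helper79.EPT.Spec

/-!
# Project EPT, row FIN
-/

set_option autoImplicit false

open scoped Classical

namespace Pool.Agent.EPT

open Finset

theorem FIN_geom (E : ℕ) : ∑ e ∈ Ico 1 E, (1 : ℝ) / 2 ^ e ≤ 1 := by
  have h : ∀ E : ℕ, ∑ e ∈ Ico 1 (E + 1), (1 : ℝ) / 2 ^ e = 1 - 1 / 2 ^ E := by
    intro E
    induction E with
    | zero => simp
    | succ n ih =>
      rw [sum_Ico_succ_top (by omega), ih, pow_succ]
      field_simp
      ring
  rcases E with _ | E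
  · simp
  · rw [h E]
    have : (0 : ℝ) ≤ 1 / 2 ^ E := by positivity
    linarith

theorem FIN_odd (a : ℤ) (h0 : a ≠ 0) : ∃ (e : ℕ) (b : ℤ), a = 2 ^ e * b ∧ (2 : ℤ) ∣ 1 + b := by
  have hfin : FiniteMultiplicity (2 : ℤ) a := by
    rw [Int.finiteMultiplicity_iff]
    exact ⟨by decide, h0⟩
  obtain ⟨b, hb, hnd⟩ := hfin.exists_eq_pow_mul_and_not_dvd
  refine ⟨multiplicity 2 a, b, hb, ?_⟩
  omega

theorem FIN (hONE : ONE_stmt) (hDEN : DEN_stmt) (hDEV : DEV_stmt) : FIN_stmt := by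
  intro k N ε hε
  obtain ⟨E, hE⟩ := exists_pow_lt_of_lt_one (show (0 : ℝ) < ε / 8 by positivity)
    (show (1 / 2 : ℝ) < 1 by norm_num)
  have hε' : (0 : ℝ) < ε / 16 := by positivity
  obtain ⟨L₁, M₁, B₁, hL₁, hB₁, hc₁, h₁⟩ := hONE k N E 3 2 3 2 (ε / 16)
    (Or.inl ⟨rfl, rfl, rfl, rfl⟩) hε'
  obtain ⟨L₂, M₂, B₂, hL₂, hB₂, hc₂, h₂⟩ := hONE k N E 3 2 5 4 (ε / 16)
    (Or.inr (Or.inl ⟨rfl, rfl, rfl, rfl⟩)) hε'
  obtain ⟨L₃, M₃, B₃, hL₃, hB₃, hc₃, h₃⟩ := hONE k N E 7 2 5 4 (ε / 16)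
    (Or.inr (Or.inr ⟨rfl, rfl, rfl, rfl⟩)) hε'
  set M := max M₁ (max M₂ M₃) with hM
  set C : ℝ := (B₁.card : ℝ) + B₂.card + B₃.card + 2 * E * B₁.card + 2 with hC
  obtain ⟨x₀, hx₀⟩ := exists_nat_ge (2 * C / ε)
  refine ⟨M, x₀, ?_⟩
  intro x hx y
  -- the condition
  set cnt : ℤ → ℕ := fun a => ((Ioc N M).filter fun n : ℕ =>
      (∃ i p q : ℕ, n = 2 ^ i * (p * q) ∧ p.Prime ∧ q.Prime ∧ 2 < p ∧ p < q) ∧
      (n.totient : ℤ) ∣ (n : ℤ) + a).card with hcnt
  have hmono : ∀ (M' : ℕ) (a : ℤ), M' ≤ M → ((Ioc N M').filter fun n : ℕ =>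
      (∃ i p q : ℕ, n = 2 ^ i * (p * q) ∧ p.Prime ∧ q.Prime ∧ 2 < p ∧ p < q) ∧
      (n.totient : ℤ) ∣ (n : ℤ) + a).card ≤ cnt a := by
    intro M' a hM'
    apply card_le_card
    apply filter_subset_filter
    exact Ioc_subset_Ioc_right hM'
  have hM₁ : M₁ ≤ M := le_max_left _ _
  have hM₂ : M₂ ≤ M := (le_max_left _ _).trans (le_max_right _ _)
  have hM₃ : M₃ ≤ M := (le_max_right _ _).trans (le_max_right _ _)
  set I := Ioc y (y + (x : ℤ)) with hI
  set S₁ := I.filter fun a : ℤ => (a % L₁).toNat ∈ B₁ with hS₁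
  set S₂ := I.filter fun a : ℤ => (a % L₂).toNat ∈ B₂ with hS₂
  set S₃ := I.filter fun a : ℤ => (a % L₃).toNat ∈ B₃ with hS₃
  set T : ℕ → Finset ℤ := fun e => I.filter fun a : ℤ =>
    ∃ a' : ℤ, a = 2 ^ e * a' ∧ (a' % L₁).toNat ∈ B₁ with hT
  set U := I.filter fun a : ℤ => ∃ a' : ℤ, a = 2 ^ E * a' ∧
    (a' % ((1 : ℕ) : ℤ)).toNat ∈ ({0} : Finset ℕ) with hU
  have hUmem : ∀ a ∈ I, ∀ a' : ℤ, a = 2 ^ E * a' → a ∈ U := by
    intro a ha a' haa
    refine mem_filter.2 ⟨ha, a', haa, ?_⟩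
    simp
  have hsub : (I.filter fun a : ℤ => cnt a < k) ⊆
      S₁ ∪ S₂ ∪ S₃ ∪ (Ico 1 E).biUnion T ∪ U := by
    intro a ha
    obtain ⟨haI, hak⟩ := mem_filter.1 ha
    by_contra hn
    simp only [mem_union, not_or] at hn
    obtain ⟨⟨⟨⟨n1, n2⟩, n3⟩, n4⟩, n5⟩ := hn
    have m1 : (a % L₁).toNat ∉ B₁ := fun h => n1 (mem_filter.2 ⟨haI, h⟩)
    have m2 : (a % L₂).toNat ∉ B₂ := fun h => n2 (mem_filter.2 ⟨haI, h⟩)
    have m3 : (a % L₃).toNat ∉ B₃ := fun h => n3 (mem_filter.2 ⟨haI, h⟩)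
    have key : k ≤ cnt a := by
      by_cases hodd : a % 2 = 1
      · by_cases h4 : a % 4 = 3
        · have := h₁ a 0 (Nat.zero_le _) m1 (Or.inl ⟨rfl, by push_cast; omega⟩)
          simp only [pow_zero, one_mul] at this
          exact this.trans (hmono M₁ a hM₁)
        · by_cases h8 : a % 8 = 1
          · have := h₂ a 0 (Nat.zero_le _) m2 (Or.inl ⟨rfl, by push_cast; omega⟩)
            simp only [pow_zero, one_mul] at this
            exact this.trans (hmono M₂ a hM₂)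
          · have := h₃ a 0 (Nat.zero_le _) m3 (Or.inl ⟨rfl, by push_cast; omega⟩)
            simp only [pow_zero, one_mul] at this
            exact this.trans (hmono M₃ a hM₃)
      · by_cases ha0 : a = 0
        · exact absurd (hUmem a haI 0 (by rw [ha0]; ring)) n5
        · obtain ⟨e, b, hab, hb⟩ := FIN_odd a ha0
          by_cases heE : E ≤ e
          · exact absurd (hUmem a haI (2 ^ (e - E) * b) (by
              rw [hab, ← mul_assoc, ← pow_add]
              congr 2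
              omega)) n5
          · have he1 : 1 ≤ e := by
              rcases Nat.eq_zero_or_pos e with h | h
              · exfalso
                rw [h, pow_zero, one_mul] at hab
                omega
              · exact h
            have m4 : (b % L₁).toNat ∉ B₁ := by
              intro h
              apply n4
              rw [mem_biUnion]
              exact ⟨e, mem_Ico.2 ⟨he1, by omega⟩, mem_filter.2 ⟨haI, b, hab, h⟩⟩
            have := h₁ b e (by omega) m4 (Or.inr ⟨he1, rfl, hb⟩)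
            rw [← hab] at this
            exact this.trans (hmono M₁ a hM₁)
    omega
  have hL₁' : (0 : ℝ) < L₁ := by exact_mod_cast hL₁
  have hL₂' : (0 : ℝ) < L₂ := by exact_mod_cast hL₂
  have hL₃' : (0 : ℝ) < L₃ := by exact_mod_cast hL₃
  have hx0 : (0 : ℝ) ≤ x := Nat.cast_nonneg _
  have bd : ∀ (L : ℝ) (B : ℝ), 0 < L → B ≤ ε / 16 * L → (x : ℝ) / L * B ≤ ε / 16 * x := by
    intro L B hL hB
    rw [div_mul_eq_mul_div, div_le_iff₀ hL]
    nlinarith [mul_le_mul_of_nonneg_left hB hx0]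
  have c1 : (S₁.card : ℝ) ≤ ε / 16 * x + B₁.card := by
    have := hDEN L₁ B₁ y x hL₁ hB₁
    have b := bd L₁ B₁.card hL₁' hc₁
    have e : ((x : ℝ) / L₁ + 1) * B₁.card = (x : ℝ) / L₁ * B₁.card + B₁.card := by ring
    rw [e] at this
    exact this.trans (by linarith)
  have c2 : (S₂.card : ℝ) ≤ ε / 16 * x + B₂.card := by
    have := hDEN L₂ B₂ y x hL₂ hB₂
    have b := bd L₂ B₂.card hL₂' hc₂
    have e : ((x : ℝ) / L₂ + 1) * B₂.card = (x : ℝ) / L₂ * B₂.card + B₂.card := by ring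
    rw [e] at this
    exact this.trans (by linarith)
  have c3 : (S₃.card : ℝ) ≤ ε / 16 * x + B₃.card := by
    have := hDEN L₃ B₃ y x hL₃ hB₃
    have b := bd L₃ B₃.card hL₃' hc₃
    have e : ((x : ℝ) / L₃ + 1) * B₃.card = (x : ℝ) / L₃ * B₃.card + B₃.card := by ring
    rw [e] at this
    exact this.trans (by linarith)
  have c4 : (((Ico 1 E).biUnion T).card : ℝ) ≤ ε / 16 * x + 2 * E * B₁.card := by
    have h1 : (((Ico 1 E).biUnion T).card : ℝ) ≤ ∑ e ∈ Ico 1 E, ((T e).card : ℝ) := by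
      exact_mod_cast card_biUnion_le
    have h2 : ∀ e ∈ Ico 1 E, ((T e).card : ℝ) ≤ ε / 16 * x * (1 / 2 ^ e) + 2 * B₁.card := by
      intro e _
      have := hDEV L₁ B₁ y x e hL₁ hB₁
      have b := bd L₁ B₁.card hL₁' hc₁
      have e2 : (0 : ℝ) < 1 / 2 ^ e := by positivity
      have e1 : ((x : ℝ) / (2 ^ e * L₁) + 2) * B₁.card =
          (x : ℝ) / L₁ * B₁.card * (1 / 2 ^ e) + 2 * B₁.card := by
        field_simp
      rw [e1] at this
      have b2 := mul_le_mul_of_nonneg_right b e2.le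
      exact this.trans (by linarith)
    refine h1.trans ((sum_le_sum h2).trans ?_)
    rw [sum_add_distrib, ← mul_sum, sum_const, nsmul_eq_mul]
    have h3 := FIN_geom E
    have h4 : (((Ico 1 E).card : ℕ) : ℝ) ≤ E := by
      rw [Nat.card_Ico]
      exact_mod_cast Nat.sub_le _ _
    have h5 : ε / 16 * (x : ℝ) * ∑ e ∈ Ico 1 E, (1 : ℝ) / 2 ^ e ≤ ε / 16 * x * 1 :=
      mul_le_mul_of_nonneg_left h3 (by positivity)
    have h6 : (((Ico 1 E).card : ℕ) : ℝ) * (2 * (B₁.card : ℝ)) ≤ E * (2 * (B₁.card : ℝ)) :=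
      mul_le_mul_of_nonneg_right h4 (by positivity)
    linarith
  have c5 : (U.card : ℝ) ≤ ε / 8 * x + 2 := by
    have := hDEV 1 {0} y x E one_pos (by simp)
    have e1 : ((x : ℝ) / (2 ^ E * ((1 : ℕ) : ℝ)) + 2) * (({0} : Finset ℕ).card : ℝ) =
        x * (1 / 2) ^ E + 2 := by
      rw [card_singleton]
      push_cast
      rw [one_div, inv_pow]
      ring
    rw [e1] at this
    have h2 : (x : ℝ) * (1 / 2) ^ E ≤ x * (ε / 8) := mul_le_mul_of_nonneg_left hE.le hx0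
    have h3 : (U.card : ℝ) ≤ x * (1 / 2) ^ E + 2 := this
    linarith
  have tot : ((I.filter fun a : ℤ => cnt a < k).card : ℝ) ≤
      S₁.card + S₂.card + S₃.card + ((Ico 1 E).biUnion T).card + U.card := by
    have h1 := card_le_card hsub
    have h2 := card_union_le (S₁ ∪ S₂ ∪ S₃ ∪ (Ico 1 E).biUnion T) U
    have h3 := card_union_le (S₁ ∪ S₂ ∪ S₃) ((Ico 1 E).biUnion T)
    have h4 := card_union_le (S₁ ∪ S₂) S₃
    have h5 := card_union_le S₁ S₂
    exact_mod_cast (by omega : (I.filter fun a : ℤ => cnt a < k).card ≤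
      S₁.card + S₂.card + S₃.card + ((Ico 1 E).biUnion T).card + U.card)
  have hxC : C ≤ ε / 2 * x := by
    have h1 : 2 * C / ε ≤ x := hx₀.trans (by exact_mod_cast hx)
    rw [div_le_iff₀ hε] at h1
    linarith
  have hfin : ((I.filter fun a : ℤ => cnt a < k).card : ℝ) ≤ ε * x := by
    have h0 : 0 ≤ ε * (x : ℝ) := by positivity
    rw [hC] at hxC
    linarith
  exact hfin

end Pool.Agent.EPT
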