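import Pool.Agent.helper79.EPT.Spec

/-! Row IT1 of project EPT: iteration of the stages. -/

set_option autoImplicit false
set_option linter.unusedVariables false

open scoped Classical

namespace Pool.Agent.EPT

open Finset

lemma IT1_mod {r L m b : ℕ} (h : r ∣ L) : r ∣ m + b % L ↔ r ∣ m + b := by
  have h1 : m + b = m + b % L + L * (b / L) := by rw [add_assoc, Nat.mod_add_div]
  rw [h1, Nat.dvd_add_left (h.mul_right _)]

lemma IT1_compl {L : ℕ} (P : ℕ → Prop) [DecidablePred P] [DecidablePred fun b => ¬ P b] {c : ℝ} (h : c * L ≤ (((range L).filter fun b => P b).card : ℝ)) :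
    (((range L).filter fun b => ¬ P b).card : ℝ) ≤ (1 - c) * L := by
  have h1 : ((range L).filter fun b => P b).card + ((range L).filter fun b => ¬ P b).card = L := by
    have := card_filter_add_card_filter_not (s := range L) P
    rw [card_range] at this
    exact this
  have h2 : (((range L).filter fun b => P b).card : ℝ) + (((range L).filter fun b => ¬ P b).card : ℝ) = L := by
    exact_mod_cast h1
  linarith

theorem IT1 (hSTG : STG_stmt) (hCRT : CRT_stmt) : IT1_stmt := by
  obtain ⟨c, hc, hst⟩ := hSTG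
  intro N u α v β ε hu hv hε
  have key : ∀ J : ℕ, ∃ (I : Finset (ℕ × ℕ)) (L : ℕ), Odd L ∧
      (∀ x ∈ I, x.1.Prime ∧ x.2.Prime ∧ N < x.1 ∧ x.1 < x.2 ∧ x.1 % 8 = u ∧ x.2 % 8 = v ∧ pr α x.1 * pr β x.2 ∣ L) ∧
      (((range L).filter fun b => ∀ x ∈ I, ¬ pr α x.1 * pr β x.2 ∣ x.1 * x.2 + b).card : ℝ) ≤ (1 - c) ^ J * L := by
    intro J
    induction J with
    | zero => exact ⟨∅, 1, odd_one, by simp, by simp⟩
    | succ J ih =>
      obtain ⟨I, L, hL, hI, hcard⟩ := ih
      obtain ⟨I', hI', hst'⟩ := hst L N u α v β hL hu hv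
      obtain ⟨L', hL'⟩ : ∃ L', L' = ∏ x ∈ I', pr α x.1 * pr β x.2 := ⟨_, rfl⟩
      have hdvd : ∀ x ∈ I', pr α x.1 * pr β x.2 ∣ L' := by
        intro x hx
        rw [hL']
        exact dvd_prod_of_mem (fun x : ℕ × ℕ => pr α x.1 * pr β x.2) hx
      have hL'0 : 0 < L' := by
        rw [hL']
        exact prod_pos fun x hx => (hI' x hx).2.2.2.2.2.2.1
      have hcop2 : Nat.Coprime L' (2 * L) := by
        rw [hL']
        exact Nat.Coprime.prod_left fun x hx => (hI' x hx).2.2.2.2.2.2.2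
      have hodd : Odd L' := by
        rw [← Nat.coprime_two_right]
        exact Nat.Coprime.coprime_mul_right_right hcop2
      have hcop : Nat.Coprime L L' := (Nat.Coprime.coprime_mul_left_right hcop2).symm
      have hbad0 := hst' L' hL'0 hdvd
      have hbad' := IT1_compl (fun b => ∃ x ∈ I', pr α x.1 * pr β x.2 ∣ x.1 * x.2 + b) (c := c) (L := L') hbad0
      refine ⟨I ∪ I', L * L', hL.mul hodd, ?_, ?_⟩
      · intro x hx
        rw [mem_union] at hx
        rcases hx with hx | hx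
        · obtain ⟨h1, h2, h3, h4, h5, h6, h7⟩ := hI x hx
          exact ⟨h1, h2, h3, h4, h5, h6, h7.mul_right _⟩
        · obtain ⟨h1, h2, h3, h4, h5, h6, h7⟩ := hI' x hx
          exact ⟨h1, h2, h3, h4, h5, h6, (hdvd x hx).mul_left _⟩
      · obtain ⟨A, hA⟩ : ∃ A, A = (range L).filter fun b => ∀ x ∈ I, ¬ pr α x.1 * pr β x.2 ∣ x.1 * x.2 + b := ⟨_, rfl⟩
        obtain ⟨B, hB⟩ : ∃ B, B = (range L').filter fun b => ¬ ∃ x ∈ I', pr α x.1 * pr β x.2 ∣ x.1 * x.2 + b := ⟨_, rfl⟩
        have hsub : ((range (L * L')).filter fun b => ∀ x ∈ I ∪ I', ¬ pr α x.1 * pr β x.2 ∣ x.1 * x.2 + b) ⊆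
            (range (L * L')).filter fun b => b % L ∈ A ∧ b % L' ∈ B := by
          intro b hb
          rw [mem_filter] at hb ⊢
          refine ⟨hb.1, ?_, ?_⟩
          · rw [hA, mem_filter]
            refine ⟨mem_range.mpr (Nat.mod_lt _ hL.pos), ?_⟩
            intro x hx
            rw [IT1_mod (hI x hx).2.2.2.2.2.2]
            exact hb.2 x (mem_union_left _ hx)
          · rw [hB, mem_filter]
            refine ⟨mem_range.mpr (Nat.mod_lt _ hL'0), ?_⟩
            rintro ⟨x, hx, hx2⟩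
            rw [IT1_mod (hdvd x hx)] at hx2
            exact hb.2 x (mem_union_right _ hx) hx2
        have h1 := card_le_card hsub
        rw [hCRT L L' A B hL.pos hL'0 hcop (by rw [hA]; exact filter_subset _ _) (by rw [hB]; exact filter_subset _ _)] at h1
        rw [← hA] at hcard
        rw [← hB] at hbad'
        calc _ ≤ ((A.card * B.card : ℕ) : ℝ) := Nat.cast_le.mpr h1
          _ = (A.card : ℝ) * (B.card : ℝ) := by push_cast; ring
          _ ≤ ((1 - c) ^ J * L) * ((1 - c) * L') := mul_le_mul hcard hbad' (Nat.cast_nonneg _) (le_trans (Nat.cast_nonneg _) hcard)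
          _ = (1 - c) ^ (J + 1) * ((L * L' : ℕ) : ℝ) := by push_cast; ring
  obtain ⟨J, hJ⟩ := exists_pow_lt_of_lt_one hε (by linarith : 1 - c < 1)
  obtain ⟨I, L, hL, hI, hcard⟩ := key J
  refine ⟨I, L, hL.pos, hI, hcard.trans ?_⟩
  exact mul_le_mul_of_nonneg_right hJ.le (Nat.cast_nonneg _)

end Pool.Agent.EPT
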