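import Pool.Agent.helper79.EPT.Spec

/-! Row ONE of project EPT: one type of pairs. -/

set_option autoImplicit false
set_option linter.unusedVariables false

open scoped Classical

namespace Pool.Agent.EPT

open Finset

lemma ONE_inj {p q p' q' : ℕ} (hp : p.Prime) (hq : q.Prime) (hp' : p'.Prime) (hq' : q'.Prime) (h : p < q) (h' : p' < q')
    (he : p * q = p' * q') : p = p' ∧ q = q' := by
  have h1 : p ∣ p' * q' := ⟨q, he.symm⟩
  rcases hp.dvd_mul.mp h1 with h2 | h2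
  · have h3 : p = p' := (Nat.prime_dvd_prime_iff_eq hp hp').mp h2
    refine ⟨h3, ?_⟩
    rw [h3] at he
    exact Nat.eq_of_mul_eq_mul_left hp'.pos he
  · exfalso
    have h3 : p = q' := (Nat.prime_dvd_prime_iff_eq hp hq').mp h2
    rw [h3, mul_comm p' q'] at he
    have h4 : q = p' := Nat.eq_of_mul_eq_mul_left hq'.pos he
    omega

lemma ONE_dvd {r L m : ℕ} {a : ℤ} (hL : 0 < L) (hr : r ∣ L) (h : r ∣ m + (a % (L : ℤ)).toNat) : (r : ℤ) ∣ (m : ℤ) + a := by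
  have h1 : (0 : ℤ) ≤ a % (L : ℤ) := Int.emod_nonneg _ (by positivity)
  have h2 : (((a % (L : ℤ)).toNat : ℕ) : ℤ) = a % (L : ℤ) := Int.toNat_of_nonneg h1
  have h3 : (r : ℤ) ∣ (m : ℤ) + a % (L : ℤ) := by
    rw [← h2]
    exact_mod_cast h
  have h4 : (m : ℤ) + a = ((m : ℤ) + a % (L : ℤ)) + (L : ℤ) * (a / (L : ℤ)) := by
    rw [add_assoc, Int.emod_add_mul_ediv]
  rw [h4]
  apply dvd_add h3
  exact Dvd.dvd.mul_right (by exact_mod_cast hr) _

theorem ONE (hITK : ITK_stmt) (hSOL : SOL_stmt) : ONE_stmt := by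
  intro k N E u α v β ε hty hε
  have hu : Ok u α := by
    rcases hty with ⟨h1, h2, h3, h4⟩ | ⟨h1, h2, h3, h4⟩ | ⟨h1, h2, h3, h4⟩ <;> subst h1 <;> subst h2 <;> simp [Ok]
  have hv : Ok v β := by
    rcases hty with ⟨h1, h2, h3, h4⟩ | ⟨h1, h2, h3, h4⟩ | ⟨h1, h2, h3, h4⟩ <;> subst h3 <;> subst h4 <;> simp [Ok]
  have hu2 : u = 3 ∨ u = 7 := by
    rcases hty with ⟨h1, -⟩ | ⟨h1, -⟩ | ⟨h1, -⟩
    · exact Or.inl h1
    · exact Or.inl h1
    · exact Or.inr h1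
  obtain ⟨I, L, hL, hI, hcard⟩ := hITK k N u α v β ε hu hv hε
  refine ⟨L, 2 ^ E * ∑ x ∈ I, x.1 * x.2,
    (range L).filter fun b => (I.filter fun x => pr α x.1 * pr β x.2 ∣ x.1 * x.2 + b).card < k, hL, filter_subset _ _, hcard, ?_⟩
  intro a e he hb hcond
  obtain ⟨b, hbdef⟩ : ∃ b, b = (a % (L : ℤ)).toNat := ⟨_, rfl⟩
  rw [← hbdef] at hb
  have hbL : b < L := by
    have h1 : (0 : ℤ) ≤ a % (L : ℤ) := Int.emod_nonneg _ (by positivity)
    have h2 : a % (L : ℤ) < L := Int.emod_lt_of_pos _ (by exact_mod_cast hL)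
    omega
  have hk : k ≤ (I.filter fun x => pr α x.1 * pr β x.2 ∣ x.1 * x.2 + b).card := by
    by_contra hlt
    apply hb
    rw [mem_filter]
    exact ⟨mem_range.mpr hbL, not_le.mp hlt⟩
  refine hk.trans ?_
  apply card_le_card_of_injOn (fun x => 2 ^ e * (x.1 * x.2))
  · intro x hx
    rw [mem_coe, mem_filter] at hx
    obtain ⟨h1, h2, h3, h4, h5, h6, h7⟩ := hI x hx.1
    have hx2 := hx.2
    rw [hbdef] at hx2
    rw [mem_coe, mem_filter, mem_Ioc]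
    have hp1 : 1 ≤ 2 ^ e := Nat.one_le_two_pow
    refine ⟨⟨?_, ?_⟩, ⟨e, x.1, x.2, rfl, h1, h2, ?_, h4⟩, ?_⟩
    · calc N < x.1 := h3
        _ = 1 * (x.1 * 1) := by ring
        _ ≤ 2 ^ e * (x.1 * x.2) := Nat.mul_le_mul hp1 (Nat.mul_le_mul_left _ h2.one_le)
    · apply Nat.mul_le_mul (Nat.pow_le_pow_right (by norm_num) he)
      exact single_le_sum (f := fun x : ℕ × ℕ => x.1 * x.2) (fun i _ => Nat.zero_le _) hx.1
    · omega
    · have hd := ONE_dvd hL h7 hx2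
      have hd' : ((pr α x.1 * pr β x.2 : ℕ) : ℤ) ∣ (x.1 : ℤ) * x.2 + a := by
        have : ((x.1 * x.2 : ℕ) : ℤ) = (x.1 : ℤ) * x.2 := by push_cast; ring
        rw [← this]
        exact hd
      exact hSOL u α v β x.1 x.2 e a hty h1 h2 h4 h5 h6 hd' hcond
  · intro x hx y hy hxy
    rw [mem_coe, mem_filter] at hx hy
    obtain ⟨h1, h2, h3, h4, -⟩ := hI x hx.1
    obtain ⟨g1, g2, g3, g4, -⟩ := hI y hy.1
    have h5 : x.1 * x.2 = y.1 * y.2 := Nat.eq_of_mul_eq_mul_left (pow_pos (by norm_num : 0 < 2) e) hxy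
    obtain ⟨h6, h7⟩ := ONE_inj h1 h2 g1 g2 h4 g4 h5
    exact Prod.ext h6 h7

end Pool.Agent.EPT
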