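import Pool.Agent.helper79.EPT.Spec

/-! Row PS1 of project EPT. -/

set_option autoImplicit false
set_option linter.unusedVariables false

open scoped Classical

namespace Pool.Agent.EPT

open Finset

lemma PS1_prle (α p : ℕ) : pr α p ≤ p :=
  (Nat.div_le_self (p - 1) α).trans (Nat.sub_le _ _)

lemma PS1_swap {S : Finset ℕ} {X : ℕ} {x : ℕ → ℕ} (hx : ∀ p ∈ S, 0 < x p ∧ x p ≤ X) :
    ∑ p ∈ S, sg (x p) / (x p : ℝ) = ∑ f ∈ Icc 1 X, 1 / (f.totient : ℝ) * ∑ p ∈ S.filter (fun p => f ∣ x p), 1 / (x p : ℝ) := by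
  have h1 : ∀ p ∈ S, sg (x p) / (x p : ℝ) = ∑ f ∈ Icc 1 X, (if f ∣ x p then 1 / (f.totient : ℝ) * (1 / (x p : ℝ)) else 0) := by
    intro p hp
    obtain ⟨h0, hX⟩ := hx p hp
    rw [← sum_filter]
    have h2 : (Icc 1 X).filter (fun f => f ∣ x p) = (x p).divisors := by
      ext f
      rw [mem_filter, mem_Icc, Nat.mem_divisors]
      constructor
      · rintro ⟨_, h⟩
        exact ⟨h, h0.ne'⟩
      · rintro ⟨h, _⟩
        exact ⟨⟨Nat.pos_of_dvd_of_pos h h0, (Nat.le_of_dvd h0 h).trans hX⟩, h⟩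
    rw [h2, sg, sum_div]
    apply sum_congr rfl
    intro f _
    ring
  rw [sum_congr rfl h1, sum_comm]
  apply sum_congr rfl
  intro f _
  rw [mul_sum, sum_filter]

theorem PS1 (hBTP : BTP_stmt) (hRS2 : RS2_stmt) (hTRM : TRM_stmt) (hPHS : PHS_stmt) (hPLW : PLW_stmt) : PS1_stmt := by
  obtain ⟨⟨Z, hZ1, hZ⟩, hph⟩ := hPHS
  obtain ⟨C, hC1, hBT⟩ := hBTP
  refine ⟨C * Z + 1, by nlinarith, ?_⟩
  intro W₁ u α t hW hu ht
  obtain ⟨s₁, hs₁⟩ := hBT W₁ u α t hW hu ht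
  obtain ⟨s₂, hs₂⟩ := hPLW 2 (4 * ((8 * W₁).totient : ℝ))
  refine ⟨s₁ + s₂, ?_⟩
  intro s hs
  have hA := hs₁ s (by omega)
  have hP := hs₂ s (by omega)
  have hW0 : 0 < W₁ := hW.pos
  have hφ0 : (0 : ℝ) < ((8 * W₁).totient : ℝ) := by
    exact_mod_cast Nat.totient_pos.mpr (by omega)
  obtain ⟨g, hg⟩ : ∃ g : ℝ, g = ((8 * W₁).totient : ℝ) := ⟨_, rfl⟩
  rw [← hg] at hA hP hφ0 ⊢
  obtain ⟨D, hD⟩ : ∃ D, D = 2 ^ (s / 8) := ⟨_, rfl⟩
  have hD1 : 1 ≤ D := by rw [hD]; exact Nat.one_le_two_pow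
  have hD0 : (0 : ℝ) < D := by exact_mod_cast hD1
  have hDr : (D : ℝ) = (2 : ℝ) ^ (s / 8) := by rw [hD]; push_cast; ring
  obtain ⟨p1, p2, p3, p4⟩ := hph s D hD1
  obtain ⟨l, hl⟩ : ∃ l : ℝ, l = 2 * (s : ℝ) + 1 := ⟨_, rfl⟩
  rw [← hl] at p1 p2 p4
  have hl0 : 0 ≤ l := by rw [hl]; positivity
  have hprop : ∀ p ∈ SP (8 * W₁) t s (2 * s), p = α * pr α p + 1 ∧ 0 < pr α p ∧ pr α p ≤ 2 ^ (2 * s) ∧ Nat.Coprime (pr α p) (8 * W₁) := by
    intro p hp
    rw [SP, mem_filter, mem_Ioc] at hp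
    obtain ⟨h1, h2, -, h4, -⟩ := hRS2 W₁ u α t p hW hu ht hp.2.2
    exact ⟨h1, h2, (PS1_prle α p).trans hp.1.2, h4⟩
  rw [PS1_swap (X := 2 ^ (2 * s)) fun p hp => ⟨(hprop p hp).2.1, (hprop p hp).2.2.1⟩]
  have hpt : ∀ f ∈ Icc 1 (2 ^ (2 * s)), 1 / (f.totient : ℝ) * ∑ p ∈ (SP (8 * W₁) t s (2 * s)).filter (fun p => f ∣ pr α p), 1 / (pr α p : ℝ) ≤
      C / g * (1 / (f.totient : ℝ) ^ 2) + (if D < f then l * (1 / ((f : ℝ) * (f.totient : ℝ))) else 0) := by
    intro f hf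
    rw [mem_Icc] at hf
    have hφf : (0 : ℝ) < (f.totient : ℝ) := by exact_mod_cast Nat.totient_pos.mpr hf.1
    have hf0 : (0 : ℝ) < (f : ℝ) := by exact_mod_cast hf.1
    by_cases hDf : D < f
    · rw [if_pos hDf]
      have hinj : Set.InjOn (pr α) ((SP (8 * W₁) t s (2 * s)).filter (fun p => f ∣ pr α p) : Set ℕ) := by
        intro p hp q hq hpq
        rw [mem_coe, mem_filter] at hp hq
        rw [(hprop p hp.1).1, (hprop q hq.1).1, hpq]
      have h1 := hTRM (((SP (8 * W₁) t s (2 * s)).filter (fun p => f ∣ pr α p)).image (pr α)) (2 ^ (2 * s)) f hf.1 Nat.one_le_two_pow (by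
        intro x hx
        rw [mem_image] at hx
        obtain ⟨p, hp, rfl⟩ := hx
        rw [mem_filter] at hp
        exact ⟨(hprop p hp.1).2.1, (hprop p hp.1).2.2.1, hp.2⟩)
      rw [sum_image hinj] at h1
      have h2 : (1 + Real.log ((2 ^ (2 * s) : ℕ) : ℝ)) / (f : ℝ) ≤ l / f := div_le_div_of_nonneg_right p4 hf0.le
      have h3 := mul_le_mul_of_nonneg_left (h1.trans h2) (by positivity : (0 : ℝ) ≤ 1 / (f.totient : ℝ))
      have h4 : 1 / (f.totient : ℝ) * (l / f) = l * (1 / ((f : ℝ) * (f.totient : ℝ))) := by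
        field_simp
      rw [h4] at h3
      have h5 : 0 ≤ C / g * (1 / (f.totient : ℝ) ^ 2) := by positivity
      linarith
    · rw [if_neg hDf, add_zero]
      by_cases hcop : Nat.Coprime f (8 * W₁)
      · have hle : f ≤ 2 ^ (s / 4) := by
          refine (not_lt.mp hDf).trans ?_
          rw [hD]
          exact Nat.pow_le_pow_right (by norm_num) (by omega)
        have h1 := (hA f 1 hf.1 hcop).1 hle
        have h2 : ∑ p ∈ (SP (8 * W₁) t s (2 * s)).filter (fun p => f ∣ pr α p), 1 / (pr α p : ℝ) ≤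
            ∑ p ∈ (SP (8 * W₁) t s (2 * s)).filter (fun p => p % f = 1 % f), 1 / (pr α p : ℝ) := by
          apply sum_le_sum_of_subset_of_nonneg
          · intro p hp
            rw [mem_filter] at hp ⊢
            refine ⟨hp.1, ?_⟩
            have h3 := (hprop p hp.1).1
            obtain ⟨c, hc⟩ := hp.2
            rw [h3, hc]
            have : α * (f * c) + 1 = 1 + f * (α * c) := by ring
            rw [this, Nat.add_mul_mod_self_left]
          · intro i _ _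
            positivity
        have h3 := mul_le_mul_of_nonneg_left (h2.trans h1) (by positivity : (0 : ℝ) ≤ 1 / (f.totient : ℝ))
        refine h3.trans (le_of_eq ?_)
        field_simp
      · have h0 : (SP (8 * W₁) t s (2 * s)).filter (fun p => f ∣ pr α p) = ∅ := by
          rw [filter_eq_empty_iff]
          intro p hp hfp
          exact hcop (Nat.Coprime.coprime_dvd_left hfp (hprop p hp).2.2.2)
        rw [h0, sum_empty, mul_zero]
        positivity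
  refine (sum_le_sum hpt).trans ?_
  rw [sum_add_distrib, ← mul_sum]
  have hI : ∑ f ∈ Icc 1 (2 ^ (2 * s)), (if D < f then l * (1 / ((f : ℝ) * (f.totient : ℝ))) else 0) ≤ l * (l / D) := by
    rw [← sum_filter]
    refine le_trans (sum_le_sum_of_subset_of_nonneg (t := Ioc D (2 ^ (2 * s))) ?_ fun i _ _ => by positivity) ?_
    · intro n hn
      rw [mem_filter, mem_Icc] at hn
      rw [mem_Ioc]
      exact ⟨hn.2, hn.1.2⟩
    · rw [← mul_sum]
      exact mul_le_mul_of_nonneg_left p2 hl0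
  have hZ2 := mul_le_mul_of_nonneg_left (hZ (2 ^ (2 * s))).2 (by positivity : 0 ≤ C / g)
  have hl2 : l ^ 2 ≤ 4 * ((s : ℝ) + 1) ^ 2 := by
    have h1 : l ≤ 2 * ((s : ℝ) + 1) := by rw [hl]; linarith
    calc l ^ 2 ≤ (2 * ((s : ℝ) + 1)) ^ 2 := pow_le_pow_left₀ hl0 h1 2
      _ = _ := by ring
  have h10 : l * (l / D) ≤ 1 / g := by
    rw [← mul_div_assoc, div_le_div_iff₀ hD0 hφ0, hDr]
    calc l * l * g = l ^ 2 * g := by ring
      _ ≤ 4 * ((s : ℝ) + 1) ^ 2 * g := by gcongr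
      _ = 4 * g * ((s : ℝ) + 1) ^ 2 := by ring
      _ ≤ (2 : ℝ) ^ (s / 8) := hP
      _ = 1 * (2 : ℝ) ^ (s / 8) := by ring
  have e2 : (C * Z + 1) / g = C / g * Z + 1 / g := by ring
  rw [e2]
  linarith

end Pool.Agent.EPT
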