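import Pool.Agent.helper79.EPT.Spec

/-! Row PS2 of project EPT: the sum over the pairs of primes. -/

set_option autoImplicit false
set_option linter.unusedVariables false

open scoped Classical

namespace Pool.Agent.EPT

open Finset

lemma PS2_prod {H S : Finset ℕ} (hH : H ⊆ S) {x y : ℕ → ℝ} (hx : ∀ n, 0 ≤ x n) (hy : ∀ n, 0 ≤ y n) {X Y : ℝ}
    (sx : ∑ n ∈ S, x n ≤ X) (sy : ∑ n ∈ S, y n ≤ Y) : ∑ h ∈ H, ∑ f ∈ H, x h * y f ≤ X * Y := by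
  rw [← sum_mul_sum]
  have h1 : ∑ n ∈ H, x n ≤ X := (sum_le_sum_of_subset_of_nonneg hH fun i _ _ => hx i).trans sx
  have h2 : ∑ n ∈ H, y n ≤ Y := (sum_le_sum_of_subset_of_nonneg hH fun i _ _ => hy i).trans sy
  exact mul_le_mul h1 h2 (sum_nonneg fun i _ => hy i) (le_trans (sum_nonneg fun i _ => hx i) h1)

lemma PS2_ind {D X : ℕ} {x : ℕ → ℝ} (hx : ∀ n, 0 ≤ x n) {Y : ℝ} (h : ∑ n ∈ Ioc D X, x n ≤ Y) :
    ∑ n ∈ Icc 1 X, (if D < n then x n else 0) ≤ Y := by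
  rw [← sum_filter]
  refine le_trans (sum_le_sum_of_subset_of_nonneg ?_ fun i _ _ => hx i) h
  intro n hn
  rw [mem_filter, mem_Icc] at hn
  rw [mem_Ioc]
  exact ⟨hn.2, hn.1.2⟩

lemma PS2_core {X D : ℕ} {H : Finset ℕ} (hH : H ⊆ Icc 1 X) {F : ℕ → ℕ → ℝ} {A l e Z : ℝ} {a b : ℕ → ℝ}
    (hA : 0 ≤ A) (hl : 0 ≤ l) (he : 0 ≤ e) (ha : ∀ n, 0 ≤ a n) (hb : ∀ n, 0 ≤ b n)
    (h1 : ∀ h ∈ H, ∀ f ∈ H, h ≤ D → f ≤ D → b f * F h f ≤ A * (a h * a f))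
    (h2 : ∀ h ∈ H, ∀ f ∈ H, D < h → b f * F h f ≤ l ^ 2 * ((1 / (h : ℝ) ^ 2) * b f))
    (h3 : ∀ h ∈ H, ∀ f ∈ H, D < f → b f * F h f ≤ l * e * ((1 / (h : ℝ)) * b f) + l ^ 2 * ((1 / (h : ℝ)) * (1 / (f : ℝ) * b f)))
    (sa : ∑ f ∈ Icc 1 X, a f ≤ Z) (sb : ∑ f ∈ Icc 1 X, b f ≤ l ^ 2)
    (sc : ∑ f ∈ Ioc D X, (1 : ℝ) / (f : ℝ) * b f ≤ l / (D : ℝ)) (sd : ∑ h ∈ Ioc D X, (1 : ℝ) / ((h : ℝ) ^ 2) ≤ (1 : ℝ) / (D : ℝ))
    (se : ∑ h ∈ Icc 1 X, (1 : ℝ) / (h : ℝ) ≤ l) :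
    ∑ h ∈ H, ∑ f ∈ H, b f * F h f ≤ A * Z ^ 2 + 2 * (l ^ 4 / D) + l ^ 4 * e := by
  have hpt : ∀ h ∈ H, ∀ f ∈ H, b f * F h f ≤ A * (a h * a f) + l ^ 2 * ((if D < h then 1 / (h : ℝ) ^ 2 else 0) * b f) +
      l * e * ((1 / (h : ℝ)) * b f) + l ^ 2 * ((1 / (h : ℝ)) * (if D < f then 1 / (f : ℝ) * b f else 0)) := by
    intro h hh f hf
    have ha1 := ha h
    have ha2 := ha f
    have hb1 := hb f
    have t1 : 0 ≤ A * (a h * a f) := by positivity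
    have t2 : 0 ≤ l ^ 2 * ((if D < h then 1 / (h : ℝ) ^ 2 else 0) * b f) := by
      have : (0 : ℝ) ≤ (if D < h then 1 / (h : ℝ) ^ 2 else 0) := by split_ifs <;> positivity
      positivity
    have t3 : 0 ≤ l * e * ((1 / (h : ℝ)) * b f) := by positivity
    have t4 : 0 ≤ l ^ 2 * ((1 / (h : ℝ)) * (if D < f then 1 / (f : ℝ) * b f else 0)) := by
      have : (0 : ℝ) ≤ (if D < f then 1 / (f : ℝ) * b f else 0) := by split_ifs <;> positivity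
      positivity
    by_cases hD : D < h
    · have := h2 h hh f hf hD
      rw [if_pos hD] at t2 ⊢
      linarith
    · by_cases hD' : D < f
      · have := h3 h hh f hf hD'
        rw [if_pos hD'] at t4 ⊢
        linarith
      · have := h1 h hh f hf (not_lt.mp hD) (not_lt.mp hD')
        linarith
  have s1 := PS2_prod hH ha ha sa sa
  have s2 := PS2_prod hH (x := fun h => if D < h then 1 / (h : ℝ) ^ 2 else 0) (y := b)
    (fun n => by split_ifs <;> positivity) hb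
    (PS2_ind (x := fun h : ℕ => 1 / (h : ℝ) ^ 2) (fun n => by positivity) sd) sb
  have s3 := PS2_prod hH (x := fun h : ℕ => 1 / (h : ℝ)) (y := b) (fun n => by positivity) hb se sb
  have s4 := PS2_prod hH (x := fun h : ℕ => 1 / (h : ℝ)) (y := fun f => if D < f then 1 / (f : ℝ) * b f else 0)
    (fun n => by positivity) (fun n => by have := hb n; split_ifs <;> positivity) se
    (PS2_ind (x := fun f : ℕ => 1 / (f : ℝ) * b f) (fun n => by have := hb n; positivity) sc)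
  calc ∑ h ∈ H, ∑ f ∈ H, b f * F h f ≤ ∑ h ∈ H, ∑ f ∈ H, (A * (a h * a f) + l ^ 2 * ((if D < h then 1 / (h : ℝ) ^ 2 else 0) * b f) +
      l * e * ((1 / (h : ℝ)) * b f) + l ^ 2 * ((1 / (h : ℝ)) * (if D < f then 1 / (f : ℝ) * b f else 0))) := by
        apply sum_le_sum
        intro h hh
        apply sum_le_sum
        intro f hf
        exact hpt h hh f hf
    _ = A * (∑ h ∈ H, ∑ f ∈ H, a h * a f) + l ^ 2 * (∑ h ∈ H, ∑ f ∈ H, (if D < h then 1 / (h : ℝ) ^ 2 else 0) * b f) +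
        l * e * (∑ h ∈ H, ∑ f ∈ H, (1 / (h : ℝ)) * b f) +
        l ^ 2 * (∑ h ∈ H, ∑ f ∈ H, (1 / (h : ℝ)) * (if D < f then 1 / (f : ℝ) * b f else 0)) := by
        simp only [sum_add_distrib, mul_sum]
    _ ≤ A * (Z * Z) + l ^ 2 * (1 / D * l ^ 2) + l * e * (l * l ^ 2) + l ^ 2 * (l * (l / D)) := by
        apply add_le_add
        · apply add_le_add
          · apply add_le_add
            · exact mul_le_mul_of_nonneg_left s1 hA
            · exact mul_le_mul_of_nonneg_left s2 (by positivity)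
          · exact mul_le_mul_of_nonneg_left s3 (by positivity)
        · exact mul_le_mul_of_nonneg_left s4 (by positivity)
    _ = _ := by ring

theorem PS2 (hSWP : SWP_stmt) (hTTA : TTA_stmt) (hTTB : TTB_stmt) (hPHS : PHS_stmt) (hPLW : PLW_stmt) (hTRM : TRM_stmt) : PS2_stmt := by
  obtain ⟨⟨Z, hZ1, hZ⟩, hph⟩ := hPHS
  obtain ⟨C, hC1, hTA⟩ := hTTA
  refine ⟨C * Z ^ 2 + 1, by nlinarith [sq_nonneg Z], ?_⟩
  intro W₁ u α t hW hu ht
  obtain ⟨s₁, hs₁⟩ := hTA W₁ u α t hW hu ht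
  obtain ⟨s₂, hs₂⟩ := hPLW 4 (160 * ((8 * W₁).totient : ℝ) ^ 2)
  refine ⟨s₁ + s₂, ?_⟩
  intro s hs
  have hA := hs₁ s (by omega)
  have hP := hs₂ s (by omega)
  have hW0 : 0 < W₁ := hW.pos
  have hφ0 : (0 : ℝ) < ((8 * W₁).totient : ℝ) := by
    exact_mod_cast Nat.totient_pos.mpr (by omega)
  obtain ⟨g, hg⟩ : ∃ g : ℝ, g = ((8 * W₁).totient : ℝ) := ⟨_, rfl⟩
  rw [← hg] at hA hP hφ0 ⊢
  obtain ⟨D, hD⟩ : ∃ D, D = 2 ^ (s / 8) := ⟨_, rfl⟩
  have hD1 : 1 ≤ D := by rw [hD]; exact Nat.one_le_two_pow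
  have hD0 : (0 : ℝ) < D := by exact_mod_cast hD1
  have hDr : (D : ℝ) = (2 : ℝ) ^ (s / 8) := by rw [hD]; push_cast; ring
  obtain ⟨p1, p2, p3, p4⟩ := hph s D hD1
  obtain ⟨l, hl⟩ : ∃ l : ℝ, l = 2 * (s : ℝ) + 1 := ⟨_, rfl⟩
  rw [← hl] at p1 p2 p4
  have hl0 : 0 ≤ l := by rw [hl]; positivity
  have hB := fun h f => hTTB W₁ u α t s h f hW hu ht
  rw [← hD] at hA
  refine (hSWP W₁ u α t s hW hu ht).trans ?_
  have se : ∑ h ∈ Icc (1 : ℕ) (2 ^ (2 * s)), (1 : ℝ) / (h : ℝ) ≤ l := by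
    have h1 := hTRM (Icc 1 (2 ^ (2 * s))) (2 ^ (2 * s)) 1 le_rfl Nat.one_le_two_pow (by
      intro x hx
      rw [mem_Icc] at hx
      exact ⟨hx.1, hx.2, one_dvd _⟩)
    rw [Nat.cast_one, div_one] at h1
    exact h1.trans p4
  have hcore := PS2_core (X := 2 ^ (2 * s)) (D := D) (H := (Icc 1 (2 ^ (2 * s))).filter (fun h => h.Coprime (8 * W₁)))
    (F := fun h f => TT (8 * W₁) t α s h f) (A := C / g ^ 2) (l := l) (e := 8 / 2 ^ s) (Z := Z)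
    (a := fun f => 1 / ((f.totient : ℝ) * √(f.totient : ℝ))) (b := fun f => 1 / (f.totient : ℝ))
    (filter_subset _ _) (by positivity) hl0 (by positivity) (fun n => by positivity) (fun n => by positivity)
    ?_ ?_ ?_ (hZ _).1 p1 ?_ p3 se
  · refine hcore.trans ?_
    have hle : (8 : ℝ) / 2 ^ s ≤ 8 / D := by
      rw [hDr]
      apply div_le_div_of_nonneg_left (by norm_num) (by positivity)
      exact pow_le_pow_right₀ (by norm_num) (Nat.div_le_self s 8)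
    have hl4 : l ^ 4 ≤ 16 * ((s : ℝ) + 1) ^ 4 := by
      have h1 : l ≤ 2 * ((s : ℝ) + 1) := by rw [hl]; linarith
      calc l ^ 4 ≤ (2 * ((s : ℝ) + 1)) ^ 4 := pow_le_pow_left₀ hl0 h1 4
        _ = _ := by ring
    have h10 : 10 * l ^ 4 / D ≤ 1 / g ^ 2 := by
      rw [div_le_div_iff₀ hD0 (by positivity), hDr]
      calc 10 * l ^ 4 * g ^ 2 ≤ 10 * (16 * ((s : ℝ) + 1) ^ 4) * g ^ 2 := by gcongr
        _ = 160 * g ^ 2 * ((s : ℝ) + 1) ^ 4 := by ring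
        _ ≤ (2 : ℝ) ^ (s / 8) := hP
        _ = 1 * (2 : ℝ) ^ (s / 8) := by ring
    have hmul : l ^ 4 * (8 / 2 ^ s) ≤ l ^ 4 * (8 / D) := mul_le_mul_of_nonneg_left hle (by positivity)
    have e1 : C / g ^ 2 * Z ^ 2 + 2 * (l ^ 4 / D) + l ^ 4 * (8 / D) = C * Z ^ 2 / g ^ 2 + 10 * l ^ 4 / D := by
      ring
    have e2 : (C * Z ^ 2 + 1) / g ^ 2 = C * Z ^ 2 / g ^ 2 + 1 / g ^ 2 := by ring
    rw [e2]
    linarith
  · intro h hh f hf hhD hfD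
    rw [mem_filter, mem_Icc] at hh hf
    have h1 := hA h f hh.1.1 hf.1.1 hhD hfD hh.2 hf.2
    have hφh : (0 : ℝ) < (h.totient : ℝ) := by exact_mod_cast Nat.totient_pos.mpr hh.1.1
    have hφf : (0 : ℝ) < (f.totient : ℝ) := by exact_mod_cast Nat.totient_pos.mpr hf.1.1
    have hsh : 0 < √(h.totient : ℝ) := Real.sqrt_pos.mpr hφh
    have hsf : 0 < √(f.totient : ℝ) := Real.sqrt_pos.mpr hφf
    have h2 := mul_le_mul_of_nonneg_left h1 (by positivity : (0 : ℝ) ≤ 1 / (f.totient : ℝ))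
    refine h2.trans (le_of_eq ?_)
    field_simp
  · intro h hh f hf hhD
    rw [mem_filter, mem_Icc] at hh hf
    have h1 := (hB h f hh.1.1 hf.1.1 hf.2).1
    rw [← hl] at h1
    have h2 := mul_le_mul_of_nonneg_left h1 (by positivity : (0 : ℝ) ≤ 1 / (f.totient : ℝ))
    refine h2.trans (le_of_eq ?_)
    ring
  · intro h hh f hf hfD
    rw [mem_filter, mem_Icc] at hh hf
    have h1 := (hB h f hh.1.1 hf.1.1 hf.2).2
    rw [← hl] at h1
    have h2 := mul_le_mul_of_nonneg_left h1 (by positivity : (0 : ℝ) ≤ 1 / (f.totient : ℝ))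
    refine h2.trans (le_of_eq ?_)
    ring
  · refine le_trans (le_of_eq ?_) p2
    apply sum_congr rfl
    intro f _
    rw [one_div_mul_one_div]

end Pool.Agent.EPT
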