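import Pool.Agent.helper79.EPT.Spec

set_option autoImplicit false
set_option linter.unusedVariables false

open scoped Classical

namespace Pool.Agent.EPT

open Finset

theorem RS1 : RS1_stmt := by
  intro W₁ u α hW hu
  have hco : Nat.Coprime 8 W₁ := by
    have : Nat.Coprime 2 W₁ := Nat.coprime_two_left.mpr hW
    exact Nat.Coprime.pow_left 3 this
  obtain ⟨t, h1, h2⟩ := Nat.chineseRemainder hco u (W₁ - 1)
  have hW0 : 0 < W₁ := hW.pos
  refine ⟨t, ?_, ?_⟩
  · have h3 : t % 8 = u % 8 := h1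
    rw [h3]
    rcases hu with ⟨h | h, -⟩ | ⟨h, -⟩ <;> rw [h]
  · have h3 : t + 1 ≡ (W₁ - 1) + 1 [MOD W₁] := h2.add_right 1
    rw [Nat.sub_add_cancel hW0] at h3
    exact (Nat.modEq_zero_iff_dvd).mp (h3.trans (Nat.modEq_zero_iff_dvd.mpr dvd_rfl))

end Pool.Agent.EPT
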