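import Pool.Agent.helper79.EPT.Spec

/-! Row STG of project EPT: one stage. -/

set_option autoImplicit false
set_option linter.unusedVariables false

open scoped Classical

namespace Pool.Agent.EPT

open Finset

lemma STG_prop (hRS2 : RS2_stmt) {W₁ u α t a b p : ℕ} (hW : Odd W₁) (hu : Ok u α) (ht : Rs W₁ u t)
    (hp : p ∈ SP (8 * W₁) t a b) :
    (2 ^ a < p ∧ p ≤ 2 ^ b ∧ p.Prime) ∧ p = α * pr α p + 1 ∧ 0 < pr α p ∧ p ≤ 8 * pr α p ∧
      Nat.Coprime (pr α p) (8 * W₁) ∧ Nat.Coprime (pr α p) 4 ∧ Nat.Coprime t (8 * W₁) ∧ p % 8 = u := by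
  simp only [SP, mem_filter, mem_Ioc] at hp
  exact ⟨⟨hp.1.1, hp.1.2, hp.2.1⟩, hRS2 W₁ u α t p hW hu ht hp.2.2⟩

lemma STG_prle (α p : ℕ) : pr α p ≤ p :=
  (Nat.div_le_self (p - 1) α).trans (Nat.sub_le _ _)

lemma STG_bt1 (S : Finset ℕ) : S.filter (fun p => p % 1 = 0 % 1) = S := by
  apply filter_true_of_mem
  intro x _
  simp [Nat.mod_one]

lemma STG_cop {P β v : ℕ} (hv : Ok v β) (h : Nat.Coprime P 4) : Nat.Coprime P β := by
  have hβ : β ∣ 4 := by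
    rcases hv with h | h
    · rw [h.2]; norm_num
    · rw [h.2]
  exact Nat.Coprime.coprime_dvd_right hβ h

lemma STG_alpos {u α : ℕ} (hu : Ok u α) : 0 < α := by
  rcases hu with h | h <;> rw [h.2] <;> norm_num

/-- the second term of DBL -/
lemma STG_A (hT1 : T1_stmt) (hRS2 : RS2_stmt) {W₁ u α v β t t' s E R : ℕ} (G Q : Finset ℕ) (hW : Odd W₁) (hu : Ok u α) (hv : Ok v β)
    (ht : Rs W₁ u t) (ht' : Rs W₁ v t') (hG : G ⊆ SP (8 * W₁) t s (2 * s))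
    (hQ : Q ⊆ SP (8 * W₁) t' E R)
    (hS : ∑ p ∈ SP (8 * W₁) t s (2 * s), 2 * (1 + Real.log ((2 ^ R : ℕ) : ℝ)) ^ 3 / (pr α p : ℝ) ^ 2 ≤ 1) :
    ∑ p ∈ G, ∑ q₁ ∈ Q, ∑ q₂ ∈ Q.erase q₁, cc (p * q₁) (pr α p * pr β q₁) (p * q₂) (pr α p * pr β q₂) /
      (((pr α p * pr β q₁ : ℕ) : ℝ) * ((pr α p * pr β q₂ : ℕ) : ℝ)) ≤ 1 := by
  have h0 : (0 : ℝ) ≤ Real.log ((2 ^ R : ℕ) : ℝ) := Real.log_natCast_nonneg _
  calc _ ≤ ∑ p ∈ G, 2 * (1 + Real.log ((2 ^ R : ℕ) : ℝ)) ^ 3 / (pr α p : ℝ) ^ 2 := by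
        apply sum_le_sum
        intro p hp
        obtain ⟨-, hpe, hpp, -, -, hp4, -, -⟩ := STG_prop hRS2 hW hu ht (hG hp)
        have := hT1 α β (pr α p) (2 ^ R) Q hpp Nat.one_le_two_pow (STG_cop hv hp4) (by
          intro q hq
          obtain ⟨⟨-, hq2, -⟩, hqe, hqp, -⟩ := STG_prop hRS2 hW hv ht' (hQ hq)
          exact ⟨hqe, hqp, (STG_prle β q).trans hq2⟩)
        rw [← hpe] at this
        exact this
    _ ≤ ∑ p ∈ SP (8 * W₁) t s (2 * s), 2 * (1 + Real.log ((2 ^ R : ℕ) : ℝ)) ^ 3 / (pr α p : ℝ) ^ 2 := by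
        apply sum_le_sum_of_subset_of_nonneg hG
        intro i _ _
        positivity
    _ ≤ 1 := hS

lemma STG_sg_nonneg (n : ℕ) : 0 ≤ sg n := by
  unfold sg
  exact sum_nonneg fun i _ => by positivity

lemma STG_sw_nonneg (W n : ℕ) : 0 ≤ sw W n := by
  unfold sw
  exact sum_nonneg fun i _ => by positivity

lemma STG_gc {B d g1 g2 T w x y : ℝ} (hd : 0 ≤ d) (h1 : g1 ≤ T) (h2 : g2 ≤ T) (h1' : 0 ≤ g1) (h2' : 0 ≤ g2) (hw : 0 ≤ w)
    (hx : 0 < x) (hy : 0 < y) :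
    1 / (x * y) * (B ^ 2 * (d * g1 * g2 * w)) ≤ B ^ 2 * T ^ 2 * (d * w / (x * y)) := by
  have h : g1 * g2 ≤ T * T := mul_le_mul h1 h2 h2' (h1'.trans h1)
  have h3 : 1 / (x * y) * (B ^ 2 * (d * g1 * g2 * w)) = (B ^ 2 * (d * w / (x * y))) * (g1 * g2) := by
    field_simp
  have h4 : B ^ 2 * T ^ 2 * (d * w / (x * y)) = (B ^ 2 * (d * w / (x * y))) * (T * T) := by
    ring
  rw [h3, h4]
  exact mul_le_mul_of_nonneg_left h (by positivity)

/-- the third term of DBL -/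
lemma STG_B (hKBC : KBC_stmt) (hRS2 : RS2_stmt) {W₁ u α v β t s : ℕ} {B T Z : ℝ} (G Q : Finset ℕ) (hW : Odd W₁)
    (hu : Ok u α) (hT : 0 ≤ T)
    (ht : Rs W₁ u t) (hG : G ⊆ SP (8 * W₁) t s (2 * s)) (hGT : ∀ p ∈ G, sg (pr α p) ≤ T)
    (hQH : QH (8 * W₁) β (2 ^ (6 * s)) B Q)
    (hS : ∑ p₁ ∈ SP (8 * W₁) t s (2 * s), ∑ p₂ ∈ (SP (8 * W₁) t s (2 * s)).erase p₁,
      ((Nat.gcd (pr α p₁) (pr α p₂)).divisors.card : ℝ) * sw (8 * W₁) (Nat.dist p₁ p₂) / ((pr α p₁ : ℝ) * (pr α p₂ : ℝ)) ≤ Z) :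
    ∑ p₁ ∈ G, ∑ p₂ ∈ G.erase p₁, 1 / ((pr α p₁ : ℝ) * (pr α p₂ : ℝ)) *
      ∑ q₁ ∈ Q, ∑ q₂ ∈ Q, cc (p₁ * q₁) (pr α p₁ * pr β q₁) (p₂ * q₂) (pr α p₂ * pr β q₂) /
        ((pr β q₁ : ℝ) * (pr β q₂ : ℝ)) ≤ B ^ 2 * T ^ 2 * Z := by
  have hsw := fun n => STG_sw_nonneg (8 * W₁) n
  calc _ ≤ ∑ p₁ ∈ G, ∑ p₂ ∈ G.erase p₁, B ^ 2 * T ^ 2 *
        (((Nat.gcd (pr α p₁) (pr α p₂)).divisors.card : ℝ) * sw (8 * W₁) (Nat.dist p₁ p₂) / ((pr α p₁ : ℝ) * (pr α p₂ : ℝ))) := by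
        apply sum_le_sum
        intro p₁ hp₁
        apply sum_le_sum
        intro p₂ hp₂
        rw [mem_erase] at hp₂
        obtain ⟨⟨-, hle1, -⟩, he1, hpos1, -, hc1, -, -, -⟩ := STG_prop hRS2 hW hu ht (hG hp₁)
        obtain ⟨⟨-, hle2, -⟩, he2, hpos2, -, hc2, -, -, -⟩ := STG_prop hRS2 hW hu ht (hG hp₂.2)
        have hne : pr α p₁ ≠ pr α p₂ := by
          intro h
          apply hp₂.1
          rw [he2, he1, h]
        have hM : pr α p₁ * pr α p₂ * Nat.dist (α * pr α p₁ + 1) (α * pr α p₂ + 1) ≤ 2 ^ (6 * s) := by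
          rw [← he1, ← he2]
          have hd : Nat.dist p₁ p₂ ≤ 2 ^ (2 * s) := by
            unfold Nat.dist
            omega
          calc pr α p₁ * pr α p₂ * Nat.dist p₁ p₂ ≤ 2 ^ (2 * s) * 2 ^ (2 * s) * 2 ^ (2 * s) := by
                apply Nat.mul_le_mul _ hd
                exact Nat.mul_le_mul ((STG_prle α p₁).trans hle1) ((STG_prle α p₂).trans hle2)
            _ = 2 ^ (6 * s) := by rw [← pow_add, ← pow_add]; congr 1; ring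
        have h1 := hKBC (8 * W₁) α β (pr α p₁) (pr α p₂) (2 ^ (6 * s)) B Q hQH (STG_alpos hu) hpos1 hpos2 hne hc1 hc2 hM
        rw [← he1, ← he2] at h1
        have hg1 := hGT p₁ hp₁
        have hg2 := hGT p₂ hp₂.2
        have hg1' := STG_sg_nonneg (pr α p₁)
        have hg2' := STG_sg_nonneg (pr α p₂)
        have hw := hsw (Nat.dist p₁ p₂)
        have hP1 : (0 : ℝ) < pr α p₁ := by exact_mod_cast hpos1
        have hP2 : (0 : ℝ) < pr α p₂ := by exact_mod_cast hpos2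
        refine le_trans (mul_le_mul_of_nonneg_left h1 (by positivity)) ?_
        exact STG_gc (Nat.cast_nonneg _) hg1 hg2 hg1' hg2' hw hP1 hP2
    _ = B ^ 2 * T ^ 2 * ∑ p₁ ∈ G, ∑ p₂ ∈ G.erase p₁,
        (((Nat.gcd (pr α p₁) (pr α p₂)).divisors.card : ℝ) * sw (8 * W₁) (Nat.dist p₁ p₂) / ((pr α p₁ : ℝ) * (pr α p₂ : ℝ))) := by
        rw [mul_sum]
        apply sum_congr rfl
        intro p₁ _
        rw [mul_sum]
    _ ≤ B ^ 2 * T ^ 2 * Z := by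
        apply mul_le_mul_of_nonneg_left _ (by positivity)
        refine le_trans ?_ hS
        calc _ ≤ ∑ p₁ ∈ G, ∑ p₂ ∈ (SP (8 * W₁) t s (2 * s)).erase p₁,
              (((Nat.gcd (pr α p₁) (pr α p₂)).divisors.card : ℝ) * sw (8 * W₁) (Nat.dist p₁ p₂) / ((pr α p₁ : ℝ) * (pr α p₂ : ℝ))) := by
              apply sum_le_sum
              intro p₁ _
              apply sum_le_sum_of_subset_of_nonneg
              · exact erase_subset_erase _ hG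
              · intro i _ _
                have := hsw (Nat.dist p₁ i)
                positivity
          _ ≤ _ := by
              apply sum_le_sum_of_subset_of_nonneg hG
              intro i _ _
              apply sum_nonneg
              intro j _
              have := hsw (Nat.dist i j)
              positivity

lemma STG_end {L cd S C T K : ℝ} (hL : 0 ≤ L) (hcd : 0 ≤ cd) (hK : 1 ≤ K) (h1 : 1 / 512 ≤ S) (hD : L * S ^ 2 ≤ cd * (C ^ 2 + 1 + C ^ 2 * T ^ 2 * K)) :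
    (1 / 512) ^ 2 / (C ^ 2 + 1 + C ^ 2 * T ^ 2 * K) * L ≤ cd := by
  have hpos : 0 < C ^ 2 + 1 + C ^ 2 * T ^ 2 * K := by positivity
  rw [div_mul_eq_mul_div, div_le_iff₀ hpos]
  refine le_trans ?_ hD
  rw [mul_comm]
  apply mul_le_mul_of_nonneg_left _ hL
  exact pow_le_pow_left₀ (by norm_num) h1 2

theorem STG (hSMO : SMO_stmt) (hT1 : T1_stmt) (hKBC : KBC_stmt) (hDBL : DBL_stmt) (hHHB : HHB_stmt) (hPLB : PLB_stmt) (hBTP : BTP_stmt) (hPS2 : PS2_stmt) (hT1S : T1S_stmt) (hGPR : GPR_stmt) (hRS1 : RS1_stmt) (hRS2 : RS2_stmt) : STG_stmt := by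
  obtain ⟨C, hC1, hBT⟩ := hBTP
  obtain ⟨K, hK1, hPS⟩ := hPS2
  obtain ⟨T, hT1', hGP⟩ := hGPR
  refine ⟨(1 / 512) ^ 2 / (C ^ 2 + 1 + C ^ 2 * T ^ 2 * K), by positivity, ?_⟩
  intro W₁ N u α v β hW hu hv
  obtain ⟨t, ht⟩ := hRS1 W₁ u α hW hu
  obtain ⟨t', ht'⟩ := hRS1 W₁ v β hW hv
  have hW0 : 0 < W₁ := hW.pos
  have hcopt' : Nat.Coprime t' (8 * W₁) := (hRS2 W₁ v β t' t' hW hv ht' rfl).2.2.2.2.2.1
  have hφ0 : 0 < (8 * W₁).totient := Nat.totient_pos.mpr (by omega)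
  obtain ⟨s1, hs1⟩ := hBT W₁ u α t hW hu ht
  obtain ⟨s2, hs2⟩ := hBT W₁ v β t' hW hv ht'
  obtain ⟨s3, hs3⟩ := hPS W₁ u α t hW hu ht
  obtain ⟨s4, hs4⟩ := hT1S W₁ u α t ((8 * W₁).totient ^ 2) hW hu ht
  obtain ⟨s5, hs5⟩ := hGP W₁ u α t hW hu ht
  obtain ⟨s6, hs6⟩ := hPLB (8 * W₁) t' (by omega) hcopt'
  obtain ⟨s, hsdef⟩ : ∃ s, s = s1 + s2 + s3 + s4 + s5 + s6 + N + 1 := ⟨_, rfl⟩
  have hk1 := hs1 s (by omega)
  have hk2 := hs2 s (by omega)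
  have hk3 := hs3 s (by omega)
  have hk4 := hs4 s (by omega)
  have hk5 := hs5 s (by omega)
  obtain ⟨k, hk⟩ : ∃ k, k = (8 * W₁).totient ^ 2 := ⟨_, rfl⟩
  rw [← hk] at hk4
  obtain ⟨R, hR⟩ : ∃ R, R = 16 * s * 2 ^ k := ⟨_, rfl⟩
  have hk6 := hs6 (16 * s) R (by omega)
  rw [← hR] at hk4
  obtain ⟨Q, hQ⟩ : ∃ Q, Q = SP (8 * W₁) t' (16 * s) R := ⟨_, rfl⟩
  obtain ⟨G, hG⟩ : ∃ G, G = (SP (8 * W₁) t s (2 * s)).filter (fun p => sg (pr α p) ≤ T) := ⟨_, rfl⟩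
  obtain ⟨f, hf⟩ : ∃ f : ℝ, f = ((8 * W₁).totient : ℝ) := ⟨_, rfl⟩
  have hf0 : 0 < f := by rw [hf]; exact_mod_cast hφ0
  have hkf : (k : ℝ) = f ^ 2 := by rw [hk, hf]; push_cast; ring
  have hGs : G ⊆ SP (8 * W₁) t s (2 * s) := by rw [hG]; exact filter_subset _ _
  have hGT : ∀ p ∈ G, sg (pr α p) ≤ T := by
    intro p hp
    rw [hG, mem_filter] at hp
    exact hp.2
  rw [← hG, ← hf] at hk5
  rw [← hf] at hk3
  -- the sums
  obtain ⟨SG, hSG⟩ : ∃ SG : ℝ, SG = ∑ p ∈ G, 1 / (pr α p : ℝ) := ⟨_, rfl⟩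
  obtain ⟨SQ, hSQ⟩ : ∃ SQ : ℝ, SQ = ∑ q ∈ Q, 1 / (pr β q : ℝ) := ⟨_, rfl⟩
  have hSG1 : 1 / (32 * f) ≤ SG := by rw [hSG]; exact hk5
  have hSG2 : SG ≤ C / f := by
    have h := (hk1 1 0 le_rfl (Nat.coprime_one_left _)).1 Nat.one_le_two_pow
    rw [STG_bt1, ← hf] at h
    have h' : C / (f * ((1 : ℕ).totient : ℝ)) = C / f := by simp
    rw [h'] at h
    refine le_trans ?_ h
    rw [hSG]
    apply sum_le_sum_of_subset_of_nonneg hGs
    intro i _ _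
    positivity
  have hbt : ∀ m c : ℕ, 1 ≤ m → m ≤ 2 ^ (6 * s) → Nat.Coprime m (8 * W₁) →
      ∑ q ∈ Q.filter (fun q => q % m = c % m), 1 / (pr β q : ℝ) ≤ C * f / (m.totient : ℝ) := by
    intro m c hm1 hm2 hm3
    have h := (hk2 m c hm1 hm3).2 hm2 k
    rw [← hR, ← hQ, ← hf, hkf] at h
    have hm : (0 : ℝ) < (m.totient : ℝ) := by exact_mod_cast Nat.totient_pos.mpr hm1
    have h' : C * f ^ 2 / (f * (m.totient : ℝ)) = C * f / (m.totient : ℝ) := by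
      field_simp
    rw [h'] at h
    exact h
  have hSQ2 : SQ ≤ C * f := by
    have h := hbt 1 0 le_rfl Nat.one_le_two_pow (Nat.coprime_one_left _)
    rw [STG_bt1] at h
    have h' : C * f / ((1 : ℕ).totient : ℝ) = C * f := by simp
    rw [h'] at h
    rw [hSQ]
    exact h
  have hSQ1 : f / 16 ≤ SQ := by
    rw [hSQ]
    have h1 := (hHHB (16 * s) k (by omega)).1
    rw [← hR] at h1
    rw [← hf, ← hQ] at hk6
    have h2 : ∑ p ∈ Q, 1 / (p : ℝ) ≤ ∑ q ∈ Q, 1 / (pr β q : ℝ) := by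
      apply sum_le_sum
      intro q hq
      rw [hQ] at hq
      obtain ⟨-, -, hq0, -⟩ := STG_prop hRS2 hW hv ht' hq
      apply one_div_le_one_div_of_le
      · exact_mod_cast hq0
      · exact_mod_cast STG_prle β q
    refine le_trans ?_ (hk6.trans h2)
    rw [le_div_iff₀ (by positivity)]
    rw [hkf] at h1
    nlinarith
  have hS1 : 1 / 512 ≤ SG * SQ := by
    have h : 1 / (32 * f) * (f / 16) ≤ SG * SQ := by
      apply mul_le_mul hSG1 hSQ1 (by positivity)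
      exact le_trans (by positivity) hSG1
    refine le_trans (le_of_eq ?_) h
    field_simp
    norm_num
  have hS2 : SG * SQ ≤ C ^ 2 := by
    have h : SG * SQ ≤ C / f * (C * f) := by
      apply mul_le_mul hSG2 hSQ2 (le_trans (by positivity) hSQ1) (by positivity)
    refine le_trans h (le_of_eq ?_)
    field_simp
  have hQH : QH (8 * W₁) β (2 ^ (6 * s)) (C * f) Q := by
    refine ⟨by positivity, ?_, ?_, ?_, hbt⟩
    · intro q hq
      rw [hQ] at hq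
      exact (STG_prop hRS2 hW hv ht' hq).2.1
    · intro q hq
      rw [hQ] at hq
      exact (STG_prop hRS2 hW hv ht' hq).2.2.1
    · intro q hq
      rw [hQ] at hq
      exact (STG_prop hRS2 hW hv ht' hq).2.2.2.2.1
  have hA := STG_A (β := β) (v := v) (t' := t') (E := 16 * s) (R := R) hT1 hRS2 G Q hW hu hv ht ht' hGs (by rw [hQ]) hk4
  have hB := STG_B (β := β) (v := v) hKBC hRS2 G Q hW hu (by linarith : (0 : ℝ) ≤ T) ht hGs hGT hQH hk3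
  have hB' : (C * f) ^ 2 * T ^ 2 * (K / f ^ 2) = C ^ 2 * T ^ 2 * K := by
    field_simp
  rw [hB'] at hB
  refine ⟨G ×ˢ Q, ?_, ?_⟩
  · intro x hx
    rw [mem_product] at hx
    have hx2 := hx.2
    rw [hQ] at hx2
    obtain ⟨⟨h1, h2, h3⟩, -, h5, -, h7, -, -, h8⟩ := STG_prop hRS2 hW hu ht (hGs hx.1)
    obtain ⟨⟨g1, g2, g3⟩, -, g5, -, g7, -, -, g8⟩ := STG_prop hRS2 hW hv ht' hx2
    have hN : N < 2 ^ s := lt_of_le_of_lt (by omega : N ≤ s) Nat.lt_two_pow_self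
    have hlt : x.1 < x.2 := by
      have : 2 ^ (2 * s) ≤ 2 ^ (16 * s) := Nat.pow_le_pow_right (by norm_num) (by omega)
      omega
    refine ⟨h3, g3, by omega, hlt, h8, g8, Nat.mul_pos h5 g5, ?_⟩
    exact Nat.Coprime.coprime_dvd_right (Nat.mul_dvd_mul_right (by norm_num) W₁) (Nat.Coprime.mul_left h7 g7)
  · intro L hL hdvd
    have hpos : ∀ p ∈ G, 0 < pr α p := fun p hp => (STG_prop hRS2 hW hu ht (hGs hp)).2.2.1
    have h1 := hSMO (G ×ˢ Q) (fun x => x.1 * x.2) (fun x => pr α x.1 * pr β x.2) L hL (by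
      intro x hx
      refine ⟨?_, hdvd x hx⟩
      rw [mem_product] at hx
      exact Nat.mul_pos (hpos x.1 hx.1) (hQH.pos x.2 hx.2))
    have h2 := hDBL α β G Q hpos hQH.pos
    rw [h2, ← hSG, ← hSQ] at h1
    have h3 : ∑ i ∈ G ×ˢ Q, 1 / ((pr α i.1 * pr β i.2 : ℕ) : ℝ) = SG * SQ := by
      rw [sum_product, hSG, hSQ, sum_mul_sum]
      apply sum_congr rfl
      intro p _
      apply sum_congr rfl
      intro q _
      push_cast
      rw [one_div_mul_one_div]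
    rw [h3] at h1
    generalize hcd : (((range L).filter fun b => ∃ i ∈ G ×ˢ Q, pr α i.1 * pr β i.2 ∣ i.1 * i.2 + b).card : ℝ) = cd at h1 ⊢
    have hcd0 : 0 ≤ cd := by rw [← hcd]; exact Nat.cast_nonneg _
    refine STG_end (Nat.cast_nonneg _) hcd0 hK1 hS1 (h1.trans ?_)
    apply mul_le_mul_of_nonneg_left _ hcd0
    linarith

end Pool.Agent.EPT
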