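import Pool.Agent.helper11.EPT.CN1
import Pool.Agent.helper11.EPT.CN2
import Pool.Agent.helper11.EPT.SMO
import Pool.Agent.helper68.EPT.T1L
import Pool.Agent.helper11.EPT.T1
import Pool.Agent.helper89.EPT.STR
import Pool.Agent.helper68.EPT.DEC
import Pool.Agent.helper18.EPT.KBA
import Pool.Agent.helper18.EPT.KBB
import Pool.Agent.helper11.EPT.SDC
import Pool.Agent.helper11.EPT.KBC
import Pool.Agent.helper40.EPT.DBL
import Pool.Agent.helper11.EPT.HHB
import Pool.Agent.helper17.EPT.PLB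
import Pool.Agent.helper79.EPT.BTS
import Pool.Agent.helper11.EPT.RS2
import Pool.Agent.helper67.EPT.BTP
import Pool.Agent.helper99.EPT.SWP
import Pool.Agent.helper83.EPT.TTA
import Pool.Agent.helper11.EPT.TRI
import Pool.Agent.helper17.EPT.TRM
import Pool.Agent.helper17.EPT.PHS
import Pool.Agent.helper49.EPT.TTB
import Pool.Agent.helper17.EPT.PLW
import Pool.Agent.helper79.EPT.PS2
import Pool.Agent.helper83.EPT.T1S
import Pool.Agent.helper79.EPT.PS1
import Pool.Agent.helper11.EPT.GPR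
import Pool.Agent.helper79.EPT.RS1
import Pool.Agent.helper79.EPT.STG
import Pool.Agent.helper11.EPT.CRT
import Pool.Agent.helper79.EPT.IT1
import Pool.Agent.helper49.EPT.ITK
import Pool.Agent.helper11.EPT.SOL
import Pool.Agent.helper79.EPT.ONE
import Pool.Agent.helper72.EPT.DEN
import Pool.Agent.helper10.EPT.DEV
import Pool.Agent.helper79.EPT.FIN

/-! # Project EPT (MP_f10000_nt): assembly -/

set_option autoImplicit false
set_option linter.unusedVariables false

namespace Pool.Agent.EPT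

theorem main : FIN_stmt := by
  have hCN1 : CN1_stmt := CN1 
  have hCN2 : CN2_stmt := CN2 hCN1
  have hSMO : SMO_stmt := SMO hCN1 hCN2
  have hT1L : T1L_stmt := T1L 
  have hT1 : T1_stmt := T1 hT1L
  have hSTR : STR_stmt := STR 
  have hDEC : DEC_stmt := DEC 
  have hKBA : KBA_stmt := KBA hSTR hDEC
  have hKBB : KBB_stmt := KBB hSTR
  have hSDC : SDC_stmt := SDC hDEC
  have hKBC : KBC_stmt := KBC hKBA hKBB hSDC hDEC
  have hDBL : DBL_stmt := DBL 
  have hHHB : HHB_stmt := HHB 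
  have hPLB : PLB_stmt := PLB 
  have hBTS : BTS_stmt := BTS 
  have hRS2 : RS2_stmt := RS2 
  have hBTP : BTP_stmt := BTP hBTS hRS2 hHHB
  have hSWP : SWP_stmt := SWP hRS2
  have hTTA : TTA_stmt := TTA hBTP hRS2
  have hTRI : TRI_stmt := TRI 
  have hTRM : TRM_stmt := TRM 
  have hPHS : PHS_stmt := PHS 
  have hTTB : TTB_stmt := TTB hRS2 hTRI hTRM hPHS
  have hPLW : PLW_stmt := PLW 
  have hPS2 : PS2_stmt := PS2 hSWP hTTA hTTB hPHS hPLW hTRM
  have hT1S : T1S_stmt := T1S hRS2 hTRM hPHS hPLW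
  have hPS1 : PS1_stmt := PS1 hBTP hRS2 hTRM hPHS hPLW
  have hGPR : GPR_stmt := GPR hPS1 hPLB hHHB hRS2
  have hRS1 : RS1_stmt := RS1 
  have hSTG : STG_stmt := STG hSMO hT1 hKBC hDBL hHHB hPLB hBTP hPS2 hT1S hGPR hRS1 hRS2
  have hCRT : CRT_stmt := CRT 
  have hIT1 : IT1_stmt := IT1 hSTG hCRT
  have hITK : ITK_stmt := ITK hIT1
  have hSOL : SOL_stmt := SOL hRS2
  have hONE : ONE_stmt := ONE hITK hSOL
  have hDEN : DEN_stmt := DEN 
  have hDEV : DEV_stmt := DEV hDEN
  have hFIN : FIN_stmt := FIN hONE hDEN hDEV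
  exact hFIN

end Pool.Agent.EPT
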