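import Pool.Agent.helper60.EPT.Spec

set_option autoImplicit false

namespace Pool.Agent.EPT

open D

theorem LOK_fst (l : List D) : (ofList l).fst = l.head?.getD nil := by
  cases l <;> rfl

theorem LOK_look (e x : D) :
    look e x = (ofList (e.toList.filter fun p => (fun y : D => tv (y.fst.fst = y.snd)) (cons p x) ≠ nil)).fst.snd := by
  have h : (e.toList.filter fun p => (fun y : D => tv (y.fst.fst = y.snd)) (cons p x) ≠ nil) =
      e.toList.filter fun p => p.fst = x := by
    apply List.filter_congr
    intro p _
    simp only [fst_cons, snd_cons]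
    exact decide_eq_decide.mpr (tv_ne_nil _)
  rw [h, LOK_fst, List.head?_filter]
  rfl

theorem LOK (hC : Cal) (hFLT : FLT_stmt) : LOK_stmt := by
  intro e a he ha
  have hf : FP (fun y : D => tv (y.fst.fst = y.snd)) :=
    hC.eq _ _ (hC.fst _ (hC.fst _ hC.id)) (hC.snd _ hC.id)
  have h := hC.snd _ (hC.fst _ (hFLT (fun y : D => tv (y.fst.fst = y.snd)) e a hf he ha))
  have heq : (fun x => look (e x) (a x)) = fun x => (ofList ((e x).toList.filter fun p =>
      (fun y : D => tv (y.fst.fst = y.snd)) (cons p (a x)) ≠ nil)).fst.snd := by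
    funext x
    exact LOK_look (e x) (a x)
  rw [heq]
  exact h

end Pool.Agent.EPT
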