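import Mathlib

/-!
# Project EPT (MP_f10000_nt): `φ(n) ∣ n + a` for almost all `a`

THEOREM. For all `k, N` and `ε > 0` there are `M, x₀` such that in every interval `(y, y + x]`, `x ≥ x₀`, `y ∈ ℤ`, all but at most `ε x` integers `a` have at least
`k` solutions `n` of `φ(n) ∣ n + a` with `N < n ≤ M`; `n = 2 ^ e p q` with odd primes `p < q` suffices.

Idea. `p = α p' + 1`, `q = β q' + 1` with `p', q'` odd and coprime to a given odd number `W₁`. `φ(p q) = α β p' q'`. The event `r = p' q' ∣ p q + b` has density `1/r`.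
`p` runs over the primes of `(2^s, 2^(2s)]` in a fixed class mod `W = 8 W₁`, `q` over the primes of `(2^(16 s), 2^(16 s 2^k)]`, `k = φ(W)^2`: the expected number of events is
between two absolute constants; the second moment is bounded by an absolute constant (Brun-Titchmarsh), so the union of the events has density `≥ c`, `c` absolute (row STG).
Repeat with `W₁` = product of all earlier moduli: independent stages (Chinese remainder theorem), the exceptional set has density `≤ (1 - c)^J`.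

Rules: file `Pool/Agent/<seat>/EPT/XX.lean`, `import Pool.Agent.helper79.EPT.Spec`, `namespace Pool.Agent.EPT`, `open Finset`,
`theorem XX (h : YY_stmt) ... : XX_stmt` (exact line in the lock note). Other rows only as hypotheses, nobody waits.
Auxiliary lemmas prefixed `XX_`. No double quotes, no `convert`, no `congr!`, no `native_decide`. Paper: `/team-store/MP_f10000_ept_helper79.md`.
-/

set_option autoImplicit false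
set_option linter.unusedVariables false

open scoped Classical

namespace Pool.Agent.EPT

open Finset

noncomputable section

/-! ## Definitions -/

/-- `(p - 1)/α` -/
def pr (α p : ℕ) : ℕ := (p - 1) / α

/-- `r₁ r₂` times the density of the set of `b` with `r₁ ∣ n₁ + b` and `r₂ ∣ n₂ + b` -/
def cc (n₁ r₁ n₂ r₂ : ℕ) : ℝ := if ((Nat.gcd r₁ r₂ : ℕ) : ℤ) ∣ (n₁ : ℤ) - (n₂ : ℤ) then (Nat.gcd r₁ r₂ : ℝ) else 0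

/-- `∑_{f ∣ n} 1/φ(f)` -/
def sg (n : ℕ) : ℝ := ∑ f ∈ n.divisors, 1 / (f.totient : ℝ)

/-- `∑_{f ∣ n, (f, W) = 1} 1/φ(f)` -/
def sw (W n : ℕ) : ℝ := ∑ f ∈ n.divisors.filter (fun f => f.Coprime W), 1 / (f.totient : ℝ)

/-- `∑_{a ≤ j < b} 1/j` -/
def HH (a b : ℕ) : ℝ := ∑ j ∈ Ico a b, 1 / (j : ℝ)

/-- the primes `≡ t (mod W)` in `(2^a, 2^b]` -/
def SP (W t a b : ℕ) : Finset ℕ := (Ioc (2 ^ a) (2 ^ b)).filter fun p => p.Prime ∧ p % W = t % W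

/-- `α` is the exact power of 2 dividing `p - 1` if `p ≡ u (mod 8)` -/
def Ok (u α : ℕ) : Prop := (u = 3 ∨ u = 7) ∧ α = 2 ∨ u = 5 ∧ α = 4

/-- the three types of pairs used -/
def Ty (u α v β : ℕ) : Prop :=
  (u = 3 ∧ α = 2 ∧ v = 3 ∧ β = 2) ∨ (u = 3 ∧ α = 2 ∧ v = 5 ∧ β = 4) ∨ (u = 7 ∧ α = 2 ∧ v = 5 ∧ β = 4)

/-- `t ≡ u (mod 8)`, `t ≡ -1 (mod W₁)` -/
def Rs (W₁ u t : ℕ) : Prop := t % 8 = u ∧ W₁ ∣ t + 1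

/-- the modulus `d` is admissible for `P₁, P₂, δ` -/
def Adm (W P₁ P₂ δ d : ℕ) : Prop :=
  0 < d ∧ Nat.Coprime d W ∧ Nat.gcd (d / Nat.gcd d P₁) (d / Nat.gcd d P₂) ∣ δ

/-- the least common multiple of `d/(d,P₁)` and `d/(d,P₂)` -/
def lc (P₁ P₂ d : ℕ) : ℕ := Nat.lcm (d / Nat.gcd d P₁) (d / Nat.gcd d P₂)

/-- the properties of the set `Q` used in the second moment: `q = β q' + 1`, `q'` coprime to `W`, Brun-Titchmarsh for the moduli `m ≤ M` coprime to `W` -/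
structure QH (W β M : ℕ) (B : ℝ) (Q : Finset ℕ) : Prop where
  nn : 0 ≤ B
  eq : ∀ q ∈ Q, q = β * pr β q + 1
  pos : ∀ q ∈ Q, 0 < pr β q
  cop : ∀ q ∈ Q, Nat.Coprime (pr β q) W
  bt : ∀ m c : ℕ, 1 ≤ m → m ≤ M → Nat.Coprime m W →
    ∑ q ∈ Q.filter (fun q => q % m = c % m), 1 / (pr β q : ℝ) ≤ B / (m.totient : ℝ)

/-- the conditions on `(q₁, q₂)` for the modulus `d` (`p_i = α P_i + 1`) -/
def Cd (α β P₁ P₂ d q₁ q₂ : ℕ) : Prop :=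
  d ∣ P₁ * pr β q₁ ∧ d ∣ P₂ * pr β q₂ ∧
    (d : ℤ) ∣ (((α * P₁ + 1) * q₁ : ℕ) : ℤ) - (((α * P₂ + 1) * q₂ : ℕ) : ℤ)

/-- the sum over the pairs of primes with `h ∣ p₁', h ∣ p₂', f ∣ p₁ - p₂` -/
def TT (W t α s h f : ℕ) : ℝ :=
  ∑ p₁ ∈ (SP W t s (2 * s)).filter (fun p => h ∣ pr α p),
    ∑ p₂ ∈ (SP W t s (2 * s)).filter (fun p => h ∣ pr α p ∧ f ∣ Nat.dist p₁ p),
      1 / ((pr α p₁ : ℝ) * (pr α p₂ : ℝ))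

/-! ## Part 1: elementary rows -/

/-- RS1 (short). Proof. `8` and `W₁` are coprime: Chinese remainder theorem (`Nat.chineseRemainder`) for `u mod 8` and `W₁ - 1 mod W₁`; `u < 8`. -/
def RS1_stmt : Prop := ∀ W₁ u α : ℕ, Odd W₁ → Ok u α → ∃ t, Rs W₁ u t

/-- RS2 (short-medium). Proof. `p ≡ t (mod 8)` and `(mod W₁)`, so `p % 8 = u` and `W₁ ∣ p + 1`. `u = 3`: `p = 8 m + 3`, `p' = 4 m + 1`; `u = 7`: `p' = 4 m + 3`;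
`u = 5`: `p = 8 m + 5`, `p' = 2 m + 1`. So `p'` is odd, `p = α p' + 1`, `p ≤ 8 p'`. A common prime divisor of `p'` and `W₁` divides `p - 1` and `p + 1`, so it is 2, but `W₁` is odd.
`t` is odd and coprime to `W₁` because `W₁ ∣ t + 1`. -/
def RS2_stmt : Prop := ∀ W₁ u α t p : ℕ, Odd W₁ → Ok u α → Rs W₁ u t → p % (8 * W₁) = t % (8 * W₁) →
  p = α * pr α p + 1 ∧ 0 < pr α p ∧ p ≤ 8 * pr α p ∧ Nat.Coprime (pr α p) (8 * W₁) ∧ Nat.Coprime (pr α p) 4 ∧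
    Nat.Coprime t (8 * W₁) ∧ p % 8 = u

/-- CN1 (short). Proof. The condition is periodic with period `r`, exactly one residue class mod `r` (`Nat.count_modEq_card`, `Int.Ico_filter_modEq_card` or a
bijection `b ↦ (b / r, b % r)`). -/
def CN1_stmt : Prop := ∀ r L n : ℕ, 0 < r → r ∣ L → (((range L).filter fun b => r ∣ n + b).card : ℝ) = (L : ℝ) / (r : ℝ)

/-- CN2 (short-medium; uses CN1). Proof. `g = (r₁, r₂)`. If the set is not empty then `g ∣ n₁ - n₂`. If `g ∣ n₁ - n₂` there is `n` with `r₁ ∣ n₁ + b` and `r₂ ∣ n₂ + b` iff `lcm(r₁, r₂) ∣ n + b`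
(generalised Chinese remainder theorem, `Nat.chineseRemainder'`: take `b₀` satisfying both and `n ≡ -b₀` modulo the lcm). CN1 for the lcm, `lcm * g = r₁ r₂`. -/
def CN2_stmt : Prop := ∀ r₁ r₂ L n₁ n₂ : ℕ, 0 < r₁ → 0 < r₂ → r₁ ∣ L → r₂ ∣ L →
  (((range L).filter fun b => r₁ ∣ n₁ + b ∧ r₂ ∣ n₂ + b).card : ℝ) = (L : ℝ) * cc n₁ r₁ n₂ r₂ / ((r₁ : ℝ) * (r₂ : ℝ))

/-- SMO (short-medium; uses CN1 CN2), the second moment. Proof. `X(b) = #{i ∈ I : r i ∣ n i + b}`. `∑_{b < L} X(b) = L ∑ 1/r i` (CN1), `∑_b X(b)² = L ∑_{i,j} cc/(r i r j)` (CN2).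
Cauchy-Schwarz: `(∑_b X)² ≤ #{b : X(b) > 0} ∑_b X²`; divide by `L`. -/
def SMO_stmt : Prop := ∀ (I : Finset (ℕ × ℕ)) (n r : ℕ × ℕ → ℕ) (L : ℕ), 0 < L → (∀ i ∈ I, 0 < r i ∧ r i ∣ L) →
  (L : ℝ) * (∑ i ∈ I, 1 / (r i : ℝ)) ^ 2 ≤
    (((range L).filter fun b => ∃ i ∈ I, r i ∣ n i + b).card : ℝ) *
      ∑ i ∈ I, ∑ j ∈ I, cc (n i) (r i) (n j) (r j) / ((r i : ℝ) * (r j : ℝ))

/-- T1L (medium). Proof. By symmetry twice the sum over `x > y`. `g = (x, y)`, `y = g b`, `x = g a`, `a - b = m c`, `c ≥ 1`: `g/(x y) = 1/(g a b) ≤ 1/(g b m c)`, and `(x, y) ↦ (g, b, c)` is injective with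
`g, b, c ≤ R`. So the sum is `≤ (2/m) (∑_{i ≤ R} 1/i)³ ≤ (2/m)(1 + log R)³` (`harmonic_le_one_add_log`). -/
def T1L_stmt : Prop := ∀ R m : ℕ, 1 ≤ R → 1 ≤ m →
  ∑ x ∈ Icc 1 R, ∑ y ∈ Icc 1 R, (if x ≠ y ∧ ((m * Nat.gcd x y : ℕ) : ℤ) ∣ (x : ℤ) - (y : ℤ) then
    (Nat.gcd x y : ℝ) / ((x : ℝ) * (y : ℝ)) else 0) ≤ 2 * (1 + Real.log (R : ℝ)) ^ 3 / (m : ℝ)

/-- T1 (short-medium; uses T1L). Proof. `x = q₁'`, `y = q₂'`; `(P x, P y) = P g`, `g = (x, y)`. If `cc ≠ 0` then `P g ∣ (α P + 1) β (x - y)`, so `P ∣ (α P + 1) β (x - y)/g`, and `P` is coprime to `β` and `α P + 1`, so `P g ∣ x - y`.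
The summand is `P g/(P² x y) = (1/P) g/(x y)`. `q ↦ q'` is injective on `Q` (`q = β q' + 1`), with values in `[1, R]`, and `q₁ ≠ q₂` implies `x ≠ y`. T1L with `m = P`. -/
def T1_stmt : Prop := ∀ (α β P R : ℕ) (Q : Finset ℕ), 1 ≤ P → 1 ≤ R → Nat.Coprime P β →
  (∀ q ∈ Q, q = β * pr β q + 1 ∧ 0 < pr β q ∧ pr β q ≤ R) →
  ∑ q₁ ∈ Q, ∑ q₂ ∈ Q.erase q₁, cc ((α * P + 1) * q₁) (P * pr β q₁) ((α * P + 1) * q₂) (P * pr β q₂) /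
    (((P * pr β q₁ : ℕ) : ℝ) * ((P * pr β q₂ : ℕ) : ℝ)) ≤ 2 * (1 + Real.log (R : ℝ)) ^ 3 / (P : ℝ) ^ 2

/-- STR (short). Proof. `d/(d,P₁) ∣ x₁` since `d ∣ P₁ x₁` (`Nat.Coprime.dvd_of_dvd_mul_left` after division by the gcd). With `p_i = α P_i + 1`, `q_i = β x_i + 1`:
`p₁ q₁ - p₂ q₂ = αβ (P₁ x₁ - P₂ x₂) + (p₁ - p₂) + (q₁ - q₂)`. Last item: the gcd `f₀` of `e_i = d/(d,P_i)` divides `d`, `q₁ - 1` and `q₂ - 1`. -/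
def STR_stmt : Prop := ∀ α β P₁ P₂ x₁ x₂ d : ℕ, 0 < d → d ∣ P₁ * x₁ → d ∣ P₂ * x₂ →
  (d : ℤ) ∣ (((α * P₁ + 1) * (β * x₁ + 1) : ℕ) : ℤ) - (((α * P₂ + 1) * (β * x₂ + 1) : ℕ) : ℤ) →
  d / Nat.gcd d P₁ ∣ x₁ ∧ d / Nat.gcd d P₂ ∣ x₂ ∧
    (d : ℤ) ∣ ((α * P₁ + 1 : ℕ) : ℤ) - ((α * P₂ + 1 : ℕ) : ℤ) + ((β * x₁ + 1 : ℕ) : ℤ) - ((β * x₂ + 1 : ℕ) : ℤ) ∧
    Nat.gcd (d / Nat.gcd d P₁) (d / Nat.gcd d P₂) ∣ Nat.dist (α * P₁ + 1) (α * P₂ + 1)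

/-- DEC (short-medium). Proof. `e_i = d/(d,P_i)`, `f₀ = (e₁, e₂)`, `f₁ = e₂/f₀`, `f₂ = e₁/f₀`, `h = d/lcm(e₁, e₂)` (the lcm divides `d`), `lcm(e₁, e₂) = f₀ f₁ f₂`, `d = h f₀ f₁ f₂`,
`(d, P₁) = d/e₁ = h f₁` and `(d, P₂) = h f₂`. So `h` divides both, `f₁ ∣ P₁`, `f₂ ∣ P₂`, and `d = (h f₁) f₂ f₀ ≤ P₁ P₂ δ`. -/
def DEC_stmt : Prop := ∀ W P₁ P₂ δ d : ℕ, 0 < P₁ → 0 < P₂ → 0 < δ → Adm W P₁ P₂ δ d →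
  ∃ h f₀ f₁ f₂ : ℕ, d = h * f₀ * f₁ * f₂ ∧ h ∣ Nat.gcd P₁ P₂ ∧ f₁ ∣ P₁ ∧ f₂ ∣ P₂ ∧ f₀ ∣ δ ∧ Nat.Coprime f₀ W ∧
    lc P₁ P₂ d = f₀ * f₁ * f₂ ∧ d ≤ P₁ * P₂ * δ ∧ lc P₁ P₂ d ∣ d

/-- SDC (short-medium; uses DEC). Proof. Choose `(h, f₀, f₁, f₂)` for every `d ∈ D` by DEC; the map is injective since `d = h f₀ f₁ f₂`. `φ(f₀ f₁ f₂) ≥ φ(f₀) φ(f₁) φ(f₂)`
(`Nat.totient_super_multiplicative`). Sum over all quadruples of divisors. -/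
def SDC_stmt : Prop := ∀ (W P₁ P₂ δ : ℕ) (D : Finset ℕ), 0 < P₁ → 0 < P₂ → 0 < δ → (∀ d ∈ D, Adm W P₁ P₂ δ d) →
  ∑ d ∈ D, 1 / ((lc P₁ P₂ d).totient : ℝ) ≤ ((Nat.gcd P₁ P₂).divisors.card : ℝ) * sg P₁ * sg P₂ * sw W δ

/-- KBA (medium; uses STR DEC). Proof. `r_i = P_i q_i'`, `g = (r₁, r₂)`, `Δ = p₁ q₁ - p₂ q₂`. If `g ∣ Δ`: `g = ∑_{d ∣ g} φ(d)`, and every `d ∣ g` satisfies `Cd`. Such a `d` is admissible: coprime to `W` since it divides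
`P₁ q₁'`; the gcd condition is STR (with `x_i = q_i'`, `q_i = β q_i' + 1`); `d ≤ P₁ P₂ δ` by DEC. So `cc ≤ ∑_{d ∈ 𝒟, Cd} φ(d)`; divide by `q₁' q₂'`, sum over `q₁, q₂` and exchange the sums. `δ = |p₁ - p₂| > 0`. -/
def KBA_stmt : Prop := ∀ (W α β P₁ P₂ : ℕ) (Q : Finset ℕ), 0 < α → 0 < P₁ → 0 < P₂ → P₁ ≠ P₂ →
  Nat.Coprime P₁ W → Nat.Coprime P₂ W → (∀ q ∈ Q, q = β * pr β q + 1 ∧ 0 < pr β q ∧ Nat.Coprime (pr β q) W) →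
  ∑ q₁ ∈ Q, ∑ q₂ ∈ Q, cc ((α * P₁ + 1) * q₁) (P₁ * pr β q₁) ((α * P₂ + 1) * q₂) (P₂ * pr β q₂) /
      ((pr β q₁ : ℝ) * (pr β q₂ : ℝ)) ≤
    ∑ d ∈ (Icc 1 (P₁ * P₂ * Nat.dist (α * P₁ + 1) (α * P₂ + 1))).filter
        (fun d => Adm W P₁ P₂ (Nat.dist (α * P₁ + 1) (α * P₂ + 1)) d),
      (d.totient : ℝ) * ∑ q₁ ∈ Q, ∑ q₂ ∈ Q,
        (if Cd α β P₁ P₂ d q₁ q₂ then 1 / ((pr β q₁ : ℝ) * (pr β q₂ : ℝ)) else 0)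

/-- KBB (short-medium; uses STR). Proof. If `Cd` holds then (STR, `x_i = q_i'`) `q₁ ≡ 1 (mod e₁)`, `q₂ ≡ 1 (mod e₂)`, `q₂ ≡ q₁ + p₁ - p₂ (mod d)`, hence `q₁ ≡ 1 + p₂ - p₁ (mod e₂)` (`e₂ ∣ d`). So all possible `q₁` are in one
residue class modulo `lcm(e₁, e₂)` (take one of them as `c`; if there is none the sum is 0), and for given `q₁` all `q₂` are in one class modulo `d`. The double sum is
`≤ ∑_{q₁ ≡ c} (1/q₁') B/φ(d) ≤ B²/(φ(lcm) φ(d))` by `QH.bt` (`lcm ∣ d`, so it is `≤ M` and coprime to `W`). -/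
def KBB_stmt : Prop := ∀ (W α β P₁ P₂ M : ℕ) (B : ℝ) (Q : Finset ℕ) (d : ℕ), QH W β M B Q → 0 < d → d ≤ M → Nat.Coprime d W →
  (d.totient : ℝ) * ∑ q₁ ∈ Q, ∑ q₂ ∈ Q, (if Cd α β P₁ P₂ d q₁ q₂ then 1 / ((pr β q₁ : ℝ) * (pr β q₂ : ℝ)) else 0) ≤
    B ^ 2 / ((lc P₁ P₂ d).totient : ℝ)

/-- KBC (short; uses KBA KBB SDC). Proof. KBA, KBB for every `d` of the sum (`d ≤ P₁ P₂ δ ≤ M`), SDC. -/
def KBC_stmt : Prop := ∀ (W α β P₁ P₂ M : ℕ) (B : ℝ) (Q : Finset ℕ), QH W β M B Q → 0 < α → 0 < P₁ → 0 < P₂ → P₁ ≠ P₂ →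
  Nat.Coprime P₁ W → Nat.Coprime P₂ W → P₁ * P₂ * Nat.dist (α * P₁ + 1) (α * P₂ + 1) ≤ M →
  ∑ q₁ ∈ Q, ∑ q₂ ∈ Q, cc ((α * P₁ + 1) * q₁) (P₁ * pr β q₁) ((α * P₂ + 1) * q₂) (P₂ * pr β q₂) /
      ((pr β q₁ : ℝ) * (pr β q₂ : ℝ)) ≤
    B ^ 2 * (((Nat.gcd P₁ P₂).divisors.card : ℝ) * sg P₁ * sg P₂ * sw W (Nat.dist (α * P₁ + 1) (α * P₂ + 1)))

/-- DBL (short-medium). Proof. Both sides are sums over `(p₁, q₁, p₂, q₂)`; split into `p₁ = p₂, q₁ = q₂` (there `cc = r`, the summand is `1/r = (1/p')(1/q')`), `p₁ = p₂, q₁ ≠ q₂`, and `p₁ ≠ p₂`.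
(`Finset.sum_product`, `Finset.add_sum_erase`.) -/
def DBL_stmt : Prop := ∀ (α β : ℕ) (G Q : Finset ℕ), (∀ p ∈ G, 0 < pr α p) → (∀ q ∈ Q, 0 < pr β q) →
  ∑ x ∈ G ×ˢ Q, ∑ y ∈ G ×ˢ Q, cc (x.1 * x.2) (pr α x.1 * pr β x.2) (y.1 * y.2) (pr α y.1 * pr β y.2) /
      (((pr α x.1 * pr β x.2 : ℕ) : ℝ) * ((pr α y.1 * pr β y.2 : ℕ) : ℝ)) =
    (∑ p ∈ G, 1 / (pr α p : ℝ)) * (∑ q ∈ Q, 1 / (pr β q : ℝ)) +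
    ∑ p ∈ G, ∑ q₁ ∈ Q, ∑ q₂ ∈ Q.erase q₁, cc (p * q₁) (pr α p * pr β q₁) (p * q₂) (pr α p * pr β q₂) /
      (((pr α p * pr β q₁ : ℕ) : ℝ) * ((pr α p * pr β q₂ : ℕ) : ℝ)) +
    ∑ p₁ ∈ G, ∑ p₂ ∈ G.erase p₁, 1 / ((pr α p₁ : ℝ) * (pr α p₂ : ℝ)) *
      ∑ q₁ ∈ Q, ∑ q₂ ∈ Q, cc (p₁ * q₁) (pr α p₁ * pr β q₁) (p₂ * q₂) (pr α p₂ * pr β q₂) /
        ((pr β q₁ : ℝ) * (pr β q₂ : ℝ))

/-! ## Part 2: primes and sums -/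

/-- HHB (short). Proof. Induction on `k`: `Ico (a 2^k) (a 2^(k+1))` has `a 2^k` members, each `1/j` is between `1/(a 2^(k+1))` and `1/(a 2^k)`. -/
def HHB_stmt : Prop := ∀ a k : ℕ, 1 ≤ a → (k : ℝ) / 2 ≤ HH a (a * 2 ^ k) ∧ HH a (a * 2 ^ k) ≤ (k : ℝ)

/-- BTS (medium). Proof. `Pool.Agent.helper7.JT.BT_aux` (file `Pool/Agent/helper51/JT/BT.lean`): `C₁, X₁`. `C = max 1 (4 C₁)`, `j₀ = X₁ + 1`. If `c` is not coprime to `m` there is no such prime: a common prime divisor of `c` and `m` divides `p`, so it is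
`p`, but `p > 2^a ≥ m`. Otherwise (CRT) `p ≡ c' (mod W m)`, `(c', W m) = 1`. `SP` is the disjoint union of its parts in `(2^j, 2^(j+1)]`, `a ≤ j < b`; there `1/p ≤ 2^(-j)` and BT_aux for `X = 2^(j+1)` (`(W m)² ≤ 2^a ≤ X`):
`≤ 2^(-j) C₁ 2^(j+1)/(φ(W) φ(m) (j+1) log 2) ≤ 4 C₁/(j φ(W) φ(m))` (`log 2 ≥ 1/2`). If `b ≤ a` both sides are 0. -/
def BTS_stmt : Prop := ∃ C : ℝ, 1 ≤ C ∧ ∃ j₀ : ℕ, ∀ W t m c a b : ℕ, 1 ≤ W → 1 ≤ m → Nat.Coprime t W → Nat.Coprime m W →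
  j₀ ≤ a → (W * m) ^ 2 ≤ 2 ^ a →
  ∑ p ∈ (SP W t a b).filter (fun p => p % m = c % m), 1 / (p : ℝ) ≤ C * HH a b / ((W.totient : ℝ) * (m.totient : ℝ))

/-- PLB (short-medium). Proof. Siegel-Walfisz `Pool.Agent.helper74.TG.siegel_walfisz 1 1` (file `Pool/Agent/helper74/TG/SW.lean`) and the proof of `primes_ap_of` in `Pool/Agent/helper29/OC/PIAP0.lean` (COPY it into your file with the
explicit constant: its witness is `1/(4 φ(q))`): `#{p ∈ (x, 2x], p ≡ t (mod W)} ≥ x/(4 φ(W) log x)` for `x ≥ x₀(W)`. With `x = 2^j`: the part of the sum in `(2^j, 2^(j+1)]` is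
`≥ 2^(-j-1) 2^j/(4 φ(W) j log 2) ≥ 1/(8 φ(W) j)`. Sum over `a ≤ j < b`. If `b ≤ a` the left side is 0. -/
def PLB_stmt : Prop := ∀ W t : ℕ, 1 ≤ W → Nat.Coprime t W → ∃ j₀ : ℕ, ∀ a b : ℕ, j₀ ≤ a →
  HH a b / (8 * (W.totient : ℝ)) ≤ ∑ p ∈ SP W t a b, 1 / (p : ℝ)

/-- TRI (short-medium). Proof. `S` empty: clear. `x₀ = min S`; `x = x₀ + m i`, `i = (x - x₀)/m` injective on `S`; the term `i = 0` is `≤ 1/A`; for `i ≥ 1`: `x ≥ m i`, `i ≤ Y`, so the rest is `≤ (1/m) ∑_{i ≤ Y} 1/i`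
(`harmonic_le_one_add_log`). -/
def TRI_stmt : Prop := ∀ (S : Finset ℕ) (A Y m c : ℕ), 1 ≤ A → 1 ≤ m → 1 ≤ Y →
  (∀ x ∈ S, A ≤ x ∧ x ≤ Y ∧ x % m = c % m) → ∑ x ∈ S, 1 / (x : ℝ) ≤ 1 / (A : ℝ) + (1 + Real.log (Y : ℝ)) / (m : ℝ)

/-- TRM (short). Proof. `x = m i`, `1 ≤ i ≤ Y`, `i` injective: `≤ (1/m) ∑_{i ≤ Y} 1/i`. -/
def TRM_stmt : Prop := ∀ (S : Finset ℕ) (Y m : ℕ), 1 ≤ m → 1 ≤ Y →
  (∀ x ∈ S, 1 ≤ x ∧ x ≤ Y ∧ m ∣ x) → ∑ x ∈ S, 1 / (x : ℝ) ≤ (1 + Real.log (Y : ℝ)) / (m : ℝ)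

/-- PHS (medium). Proof. `f ≤ (Nat.log 2 f + 1) φ(f)` is `B6_phi` in `Pool/Agent/helper29/FC/B6.lean` (import or copy). (1) `1/(φ √φ) ≤ (Nat.log 2 f + 1)^2/(f √f)` and `(Nat.log 2 f + 1)^2 ≤ C f^(1/4)`: bounded sums
(`f^(-5/4)` is summable). (2) follows from (1) since `φ ≥ √φ`. (3) `∑_{f ≤ 2^(2s)} 1/φ(f) ≤ (2 s + 1) ∑ 1/f ≤ (2 s + 1)(1 + 2 s log 2)`. (4) `∑_{D < f ≤ 2^(2s)} 1/(f φ(f)) ≤ (2 s + 1) ∑_{f > D} 1/f² ≤ (2 s + 1)/D`. -/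
def PHS_stmt : Prop := (∃ Z : ℝ, 1 ≤ Z ∧ ∀ N : ℕ,
    ∑ f ∈ Icc 1 N, 1 / ((f.totient : ℝ) * √(f.totient : ℝ)) ≤ Z ∧ ∑ f ∈ Icc 1 N, 1 / (f.totient : ℝ) ^ 2 ≤ Z) ∧
  ∀ s D : ℕ, 1 ≤ D → ∑ f ∈ Icc 1 (2 ^ (2 * s)), 1 / (f.totient : ℝ) ≤ (2 * (s : ℝ) + 1) ^ 2 ∧
    ∑ f ∈ Ioc D (2 ^ (2 * s)), 1 / ((f : ℝ) * (f.totient : ℝ)) ≤ (2 * (s : ℝ) + 1) / (D : ℝ) ∧
    ∑ f ∈ Ioc D (2 ^ (2 * s)), 1 / ((f : ℝ) ^ 2) ≤ 1 / (D : ℝ) ∧ 1 + Real.log ((2 ^ (2 * s) : ℕ) : ℝ) ≤ 2 * (s : ℝ) + 1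

/-- PLW (short). Proof. `2^(s/8) ≥ 2^(⌊s/8⌋)`, `s ≤ 8 ⌊s/8⌋ + 7`; exponential against polynomial. -/
def PLW_stmt : Prop := ∀ (n : ℕ) (A : ℝ), ∃ s₀ : ℕ, ∀ s ≥ s₀, A * ((s : ℝ) + 1) ^ n ≤ (2 : ℝ) ^ (s / 8)

/-- BTP (short-medium; uses BTS RS2 HHB): the two consequences of BTS. Proof. `1/p' ≤ 8/p` (RS2). `t` is coprime to `8 W₁` (RS2). (1) `HH s (2 s) ≤ 1` (HHB with `k = 1`, `a 2^1 = 2 a`), `m ≤ 2^(s/4)`, so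
`(8 W₁ m)² ≤ 64 W₁² 2^(s/2) ≤ 2^s` for large `s`. (2) `HH (16 s) (16 s 2^k) ≤ k`, `(8 W₁ m)² ≤ 64 W₁² 2^(12 s) ≤ 2^(16 s)`. (Take `s₀ ≥ j₀` and `64 W₁² ≤ 2^(s₀/2)`, e.g. `s₀ = j₀ + 12 + 4 W₁`.) -/
def BTP_stmt : Prop := ∃ C : ℝ, 1 ≤ C ∧ ∀ W₁ u α t : ℕ, Odd W₁ → Ok u α → Rs W₁ u t → ∃ s₀ : ℕ, ∀ s ≥ s₀, ∀ m c : ℕ, 1 ≤ m →
  Nat.Coprime m (8 * W₁) →
  (m ≤ 2 ^ (s / 4) → ∑ p ∈ (SP (8 * W₁) t s (2 * s)).filter (fun p => p % m = c % m), 1 / (pr α p : ℝ) ≤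
    C / (((8 * W₁).totient : ℝ) * (m.totient : ℝ))) ∧
  (m ≤ 2 ^ (6 * s) → ∀ k : ℕ, ∑ p ∈ (SP (8 * W₁) t (16 * s) (16 * s * 2 ^ k)).filter (fun p => p % m = c % m), 1 / (pr α p : ℝ) ≤
    C * k / (((8 * W₁).totient : ℝ) * (m.totient : ℝ)))

/-- PS1 (medium; uses BTP RS2 TRM PHS PLW). Proof. `W = 8 W₁`, `D = 2^(s/8)`, `X = 2^(2s)`. `∑_p sg(p')/p' = ∑_{f ≤ X} (1/φ(f)) ∑_{p : f ∣ p'} 1/p'`. `f ∣ p'` implies `(f, W) = 1` and `p ≡ 1 (mod f)`. `f ≤ D ≤ 2^(s/4)`: BTP gives `C/(φ(W) φ(f))`, in total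
`≤ C Z/φ(W)`. `f > D`: TRM (`p ↦ p'` is injective) gives `(2 s + 1)/f`, in total `≤ (2 s + 1)²/D ≤ 1/φ(W)` for large `s` (PLW). `K = C Z + 1`. -/
def PS1_stmt : Prop := ∃ K : ℝ, 1 ≤ K ∧ ∀ W₁ u α t : ℕ, Odd W₁ → Ok u α → Rs W₁ u t → ∃ s₀ : ℕ, ∀ s ≥ s₀,
  ∑ p ∈ SP (8 * W₁) t s (2 * s), sg (pr α p) / (pr α p : ℝ) ≤ K / ((8 * W₁).totient : ℝ)

/-- SWP (short-medium; uses RS2). Proof. `τ(g) = ∑_{h ∣ g} 1`, `h ∣ (p₁', p₂')` iff `h ∣ p₁'` and `h ∣ p₂'`; `sw` is the sum of `1/φ(f)` over `f ∣ |p₁ - p₂| > 0`, `(f, W) = 1`; `1 ≤ h, f ≤ 2^(2s)`; `h` is coprime to `W` because `p₁'` is.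
Exchange the sums; all terms are `≥ 0` (on the right the pairs `p₂ = p₁` are added). -/
def SWP_stmt : Prop := ∀ W₁ u α t s : ℕ, Odd W₁ → Ok u α → Rs W₁ u t →
  ∑ p₁ ∈ SP (8 * W₁) t s (2 * s), ∑ p₂ ∈ (SP (8 * W₁) t s (2 * s)).erase p₁,
    ((Nat.gcd (pr α p₁) (pr α p₂)).divisors.card : ℝ) * sw (8 * W₁) (Nat.dist p₁ p₂) / ((pr α p₁ : ℝ) * (pr α p₂ : ℝ)) ≤
  ∑ h ∈ (Icc 1 (2 ^ (2 * s))).filter (fun h => h.Coprime (8 * W₁)),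
    ∑ f ∈ (Icc 1 (2 ^ (2 * s))).filter (fun f => f.Coprime (8 * W₁)), 1 / (f.totient : ℝ) * TT (8 * W₁) t α s h f

/-- TTA (short-medium; uses BTP RS2), small moduli. Proof. `p₁ ≡ 1 (mod h)`. For given `p₁`: `p₂ ≡ 1 (mod h)` and `p₂ ≡ p₁ (mod f)`, so all `p₂` are in one class modulo `lcm(h, f) ≤ h f ≤ 2^(s/8) 2^(s/8) ≤ 2^(s/4)`, coprime to `W`. BTP twice.
`φ(lcm)² ≥ φ(h) φ(f)` since `φ(h)` and `φ(f)` divide `φ(lcm)`. -/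
def TTA_stmt : Prop := ∃ C : ℝ, 1 ≤ C ∧ ∀ W₁ u α t : ℕ, Odd W₁ → Ok u α → Rs W₁ u t → ∃ s₀ : ℕ, ∀ s ≥ s₀, ∀ h f : ℕ,
  1 ≤ h → 1 ≤ f → h ≤ 2 ^ (s / 8) → f ≤ 2 ^ (s / 8) → Nat.Coprime h (8 * W₁) → Nat.Coprime f (8 * W₁) →
  TT (8 * W₁) t α s h f ≤
    C / (((8 * W₁).totient : ℝ) ^ 2 * ((h.totient : ℝ) * (√(h.totient : ℝ) * √(f.totient : ℝ))))

/-- TTB (short-medium; uses RS2 TRI TRM PHS), large moduli. Proof. `ℓ = 2 s + 1 ≥ 1 + log 2^(2s)`. First: `TT ≤ (∑_{p : h ∣ p'} 1/p')² ≤ (ℓ/h)²` (TRM; `p ↦ p'` is injective, `1 ≤ p' ≤ p ≤ 2^(2s)`). Second: for given `p₁` all `p₂'` are `≡ p₁' (mod f)`: `f ∣ α (p₁' - p₂')`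
and `f` is odd, `α ∣ 4`. They are `≥ 2^s/8`: TRI with `A = ⌈2^s/8⌉`, i.e. `≤ 8/2^s + ℓ/f`. -/
def TTB_stmt : Prop := ∀ W₁ u α t s h f : ℕ, Odd W₁ → Ok u α → Rs W₁ u t → 1 ≤ h → 1 ≤ f → Nat.Coprime f (8 * W₁) →
  TT (8 * W₁) t α s h f ≤ ((2 * (s : ℝ) + 1) / h) ^ 2 ∧
  TT (8 * W₁) t α s h f ≤ (2 * (s : ℝ) + 1) / h * (8 / 2 ^ s + (2 * (s : ℝ) + 1) / f)

/-- PS2 (medium; uses SWP TTA TTB PHS PLW TRM). Proof. `D = 2^(s/8)`, `X = 2^(2s)`, `ℓ = 2 s + 1`, `W = 8 W₁`. SWP. `h, f ≤ D`: TTA, in total `≤ (C/φ(W)²) ∑_h ∑_f 1/(φ(h) √φ(h) φ(f) √φ(f)) ≤ C Z²/φ(W)²`.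
`h > D`: `∑_{h > D} ∑_f (1/φ(f)) ℓ²/h² ≤ ℓ² ℓ² (1/D)`. `h ≤ D, f > D`: `∑_h (ℓ/h) ∑_{f > D} (1/φ(f)) (8/2^s + ℓ/f) ≤ ℓ² (ℓ² 8/2^s + ℓ² /D)` (`∑_{h ≤ X} 1/h ≤ ℓ`). In total for large `s` (PLW; `2^(s/8) ≤ 2^s`)
`≤ C Z²/φ(W)² + 10 ℓ⁴/D ≤ (C Z² + 1)/φ(W)²`. -/
def PS2_stmt : Prop := ∃ K : ℝ, 1 ≤ K ∧ ∀ W₁ u α t : ℕ, Odd W₁ → Ok u α → Rs W₁ u t → ∃ s₀ : ℕ, ∀ s ≥ s₀,
  ∑ p₁ ∈ SP (8 * W₁) t s (2 * s), ∑ p₂ ∈ (SP (8 * W₁) t s (2 * s)).erase p₁,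
    ((Nat.gcd (pr α p₁) (pr α p₂)).divisors.card : ℝ) * sw (8 * W₁) (Nat.dist p₁ p₂) / ((pr α p₁ : ℝ) * (pr α p₂ : ℝ)) ≤
    K / ((8 * W₁).totient : ℝ) ^ 2

/-- T1S (short-medium; uses RS2 TRM PHS PLW). Proof. `p' ≥ p/8 ≥ 2^s/8`, so `1/p'² ≤ (8/2^s)(1/p')`, `∑_p 1/p' ≤ 2 s + 1` (TRM with `m = 1`, PHS). `log 2^(16 s 2^k) ≤ 16 s 2^k`. So the sum is
`≤ 16 (1 + 16 s 2^k)³ (2 s + 1)/2^s ≤ 1` for large `s` (PLW, `2^(s/8) ≤ 2^s`). -/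
def T1S_stmt : Prop := ∀ W₁ u α t k : ℕ, Odd W₁ → Ok u α → Rs W₁ u t → ∃ s₀ : ℕ, ∀ s ≥ s₀,
  ∑ p ∈ SP (8 * W₁) t s (2 * s), 2 * (1 + Real.log ((2 ^ (16 * s * 2 ^ k) : ℕ) : ℝ)) ^ 3 / (pr α p : ℝ) ^ 2 ≤ 1

/-- GPR (short-medium; uses PS1 PLB HHB RS2), the good primes. Proof. `K` from PS1, `T = 32 K`. `∑_{p ∈ P} 1/p' ≥ ∑ 1/p ≥ HH s (2 s)/(8 φ(W)) ≥ 1/(16 φ(W))` (PLB, HHB with `k = 1`, `p' ≤ p`; `t` is coprime to `W` by RS2). The primes with `sg(p') > T`: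
`∑ 1/p' ≤ (1/T) ∑ sg(p')/p' ≤ 1/(32 φ(W))`. -/
def GPR_stmt : Prop := ∃ T : ℝ, 1 ≤ T ∧ ∀ W₁ u α t : ℕ, Odd W₁ → Ok u α → Rs W₁ u t → ∃ s₀ : ℕ, ∀ s ≥ s₀,
  1 / (32 * ((8 * W₁).totient : ℝ)) ≤ ∑ p ∈ (SP (8 * W₁) t s (2 * s)).filter (fun p => sg (pr α p) ≤ T), 1 / (pr α p : ℝ)

/-- STG (medium-long; uses SMO T1 KBC DBL HHB PLB BTP PS2 T1S GPR RS1 RS2), one stage. Proof. `W = 8 W₁`, `φ = φ(W)`, `k = φ²`, `t, t'` from RS1, `P = SP W t s (2s)`, `G = {p ∈ P : sg p' ≤ T}` (GPR), `Q = SP W t' (16 s) (16 s 2^k)`, `s` large, `s ≥ N`. `I = G × Q`.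
`S = S_G S_Q`: `S_G ≥ 1/(32 φ)` (GPR), `S_G ≤ C/φ` (BTP, `m = 1`), `S_Q ≥ HH/(8 φ) ≥ k/(16 φ) = φ/16` (PLB HHB, `1/q' ≥ 1/q`), `S_Q ≤ C k/φ = C φ` (BTP, `m = 1`). So `1/512 ≤ S ≤ C²`.
`QH W β 2^(6s) (C φ) Q` by BTP. The double sum of SMO by DBL: `≤ S + 1 + ∑_{p₁ ≠ p₂} (1/(p₁' p₂')) (C φ)² τ sg sg sw ≤ C² + 1 + (C φ)² T² K/φ² = C² + 1 + C² T² K` (T1 with `R = 2^(16 s 2^k)` and T1S; KBC with `M = 2^(6s)`, `P_i ≤ 2^(2s)`, `δ ≤ 2^(2s)`; PS2).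
SMO: `c = (1/512)²/(C² + 1 + C² T² K)`. -/
def STG_stmt : Prop := ∃ c : ℝ, 0 < c ∧ ∀ W₁ N u α v β : ℕ, Odd W₁ → Ok u α → Ok v β →
  ∃ I : Finset (ℕ × ℕ), (∀ x ∈ I, x.1.Prime ∧ x.2.Prime ∧ N < x.1 ∧ x.1 < x.2 ∧ x.1 % 8 = u ∧ x.2 % 8 = v ∧
      0 < pr α x.1 * pr β x.2 ∧ Nat.Coprime (pr α x.1 * pr β x.2) (2 * W₁)) ∧
    ∀ L : ℕ, 0 < L → (∀ x ∈ I, pr α x.1 * pr β x.2 ∣ L) →
      c * L ≤ (((range L).filter fun b => ∃ x ∈ I, pr α x.1 * pr β x.2 ∣ x.1 * x.2 + b).card : ℝ)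

/-! ## Part 3: iteration and end -/

/-- CRT (short-medium). Proof. `b ↦ (b % L₁, b % L₂)` is a bijection from `range (L₁ L₂)` to the product of the ranges (`Nat.chineseRemainder`, or injectivity and cardinality). -/
def CRT_stmt : Prop := ∀ (L₁ L₂ : ℕ) (A B : Finset ℕ), 0 < L₁ → 0 < L₂ → Nat.Coprime L₁ L₂ → A ⊆ range L₁ → B ⊆ range L₂ →
  ((range (L₁ * L₂)).filter fun b => b % L₁ ∈ A ∧ b % L₂ ∈ B).card = A.card * B.card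

/-- IT1 (medium; uses STG CRT). Proof. Claim by induction on `J`: there are `I`, `L` odd, with the listed properties and at most `(1 - c)^J L` residues without event (`J = 0`: `I = ∅`, `L = 1`). Step: STG with `W₁ = L` gives `I'`; `L' = ∏_{x ∈ I'} r_x` is odd and coprime to `L`; new `I ∪ I'`, `L L'`.
`r ∣ p q + b` depends only on `b % L` if `r ∣ L`. The residues of `range (L L')` without event satisfy `b % L ∈ bad`, `b % L' ∈ bad'`, where `|bad| ≤ (1-c)^J L`, `|bad'| ≤ (1 - c) L'` (STG for `L'`; `c ≤ 1` since the number is `≤ L`; if `0 < c`). CRT. `(1 - c)^J ≤ ε` for large `J`. -/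
def IT1_stmt : Prop := ∀ (N u α v β : ℕ) (ε : ℝ), Ok u α → Ok v β → 0 < ε → ∃ (I : Finset (ℕ × ℕ)) (L : ℕ), 0 < L ∧
  (∀ x ∈ I, x.1.Prime ∧ x.2.Prime ∧ N < x.1 ∧ x.1 < x.2 ∧ x.1 % 8 = u ∧ x.2 % 8 = v ∧ pr α x.1 * pr β x.2 ∣ L) ∧
  (((range L).filter fun b => ∀ x ∈ I, ¬ pr α x.1 * pr β x.2 ∣ x.1 * x.2 + b).card : ℝ) ≤ ε * L

/-- ITK (short-medium; uses IT1). Proof. Induction on `k` for all `ε`. `k = 0`: `I = ∅`, `L = 1`. Step: `I, L` for `(k, ε/2)`, IT1 with `N' = N + ∑_{x ∈ I} x.1` and `ε/2`: `I', L'`; `I` and `I'` are disjoint. New `I ∪ I'`, `L L'`. If fewer than `k + 1` events hold for `b` then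
fewer than `k` events of `I` or none of `I'`; the events of `I` depend only on `b % L`, and each residue mod `L` has `L'` representatives in `range (L L')` (the same for `L'`). -/
def ITK_stmt : Prop := ∀ (k N u α v β : ℕ) (ε : ℝ), Ok u α → Ok v β → 0 < ε → ∃ (I : Finset (ℕ × ℕ)) (L : ℕ), 0 < L ∧
  (∀ x ∈ I, x.1.Prime ∧ x.2.Prime ∧ N < x.1 ∧ x.1 < x.2 ∧ x.1 % 8 = u ∧ x.2 % 8 = v ∧ pr α x.1 * pr β x.2 ∣ L) ∧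
  (((range L).filter fun b => (I.filter fun x => pr α x.1 * pr β x.2 ∣ x.1 * x.2 + b).card < k).card : ℝ) ≤ ε * L

/-- SOL (short-medium; uses RS2). Proof. RS2 with `W₁ = 1`, `t = u` (`Rs 1 u u`): `p = α p' + 1`, `q = β q' + 1`, `p' q'` odd. `φ(2^e p q) = φ(2^e) α β p' q'` (`p`, `q` odd primes, `p < q`). `e = 0`: `α β` divides 8, `p q + a ≡ u v + a (mod 8)`; `α β` (a power of 2) and `p' q'` (odd) are coprime.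
`e ≥ 1`, type `(3, 2, 3, 2)`: `φ = 2^(e-1) 4 p' q' = 2^e (2 p' q')`, and `p q + a` is even. -/
def SOL_stmt : Prop := ∀ (u α v β p q e : ℕ) (a : ℤ), Ty u α v β → p.Prime → q.Prime → p < q → p % 8 = u → q % 8 = v →
  ((pr α p * pr β q : ℕ) : ℤ) ∣ (p : ℤ) * q + a →
  ((e = 0 ∧ ((α * β : ℕ) : ℤ) ∣ (u : ℤ) * v + a) ∨ (1 ≤ e ∧ v = 3 ∧ (2 : ℤ) ∣ 1 + a)) →
  ((2 ^ e * (p * q)).totient : ℤ) ∣ ((2 ^ e * (p * q) : ℕ) : ℤ) + 2 ^ e * a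

/-- DEN (short-medium). Proof. For each `b ∈ B` the number of `a ∈ (y, y + x]` with `a ≡ b (mod L)` is `≤ x/L + 1` (`Int.Ioc_filter_modEq_card` or directly). -/
def DEN_stmt : Prop := ∀ (L : ℕ) (B : Finset ℕ) (y : ℤ) (x : ℕ), 0 < L → B ⊆ range L →
  (((Ioc y (y + x)).filter fun a : ℤ => (a % L).toNat ∈ B).card : ℝ) ≤ ((x : ℝ) / L + 1) * B.card

/-- DEV (short-medium; uses DEN). Proof. `a = 2^e a'`, `a' ∈ (⌊y/2^e⌋, ⌊(y+x)/2^e⌋]`, an interval of length `≤ x/2^e + 1` (`x' = ⌊(y+x)/2^e⌋ - ⌊y/2^e⌋`); `a ↦ a'` is injective; DEN for this interval: `≤ (x'/L + 1) |B| ≤ (x/(2^e L) + 2) |B|`. -/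
def DEV_stmt : Prop := ∀ (L : ℕ) (B : Finset ℕ) (y : ℤ) (x e : ℕ), 0 < L → B ⊆ range L →
  (((Ioc y (y + x)).filter fun a : ℤ => ∃ a' : ℤ, a = 2 ^ e * a' ∧ (a' % L).toNat ∈ B).card : ℝ) ≤
    ((x : ℝ) / (2 ^ e * L) + 2) * B.card

/-- ONE (medium; uses ITK SOL). The bad `a'` of one type, in one statement. Proof. `I, L` from ITK for `(k, N, ε)`, `B` = the bad residues (`|B| ≤ ε L`), `M = 2^E ∏...` any bound `≥ 2^e p q` for all `e ≤ E`, `(p, q) ∈ I` (e.g. `2^E ∑_{x ∈ I} x.1 x.2`). If `(a % L).toNat ∉ B` then at least `k` of the pairs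
satisfy `p' q' ∣ p q + b`, `b = (a % L).toNat`, hence `p' q' ∣ p q + a`; SOL; the numbers `2^e p q` are different for different pairs of primes `p < q` (unique factorisation), odd primes since `p % 8 ∈ {3, 7}`, `> N`. -/
def ONE_stmt : Prop := ∀ (k N E u α v β : ℕ) (ε : ℝ), Ty u α v β → 0 < ε → ∃ (L M : ℕ) (B : Finset ℕ), 0 < L ∧ B ⊆ range L ∧ (B.card : ℝ) ≤ ε * L ∧
  ∀ (a : ℤ) (e : ℕ), e ≤ E → (a % L).toNat ∉ B → ((e = 0 ∧ ((α * β : ℕ) : ℤ) ∣ (u : ℤ) * v + a) ∨ (1 ≤ e ∧ v = 3 ∧ (2 : ℤ) ∣ 1 + a)) →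
    k ≤ ((Ioc N M).filter fun n : ℕ => (∃ i p q : ℕ, n = 2 ^ i * (p * q) ∧ p.Prime ∧ q.Prime ∧ 2 < p ∧ p < q) ∧
      (n.totient : ℤ) ∣ (n : ℤ) + 2 ^ e * a).card

/-- FIN (medium; uses ONE DEN DEV), the theorem. Proof. `E` with `2^(-E) ≤ ε/8`, `ε' = ε/16`; ONE for the three types: `(3,2,3,2)` serves `a ≡ 3 (mod 4)` (`9 + a ≡ 0 (mod 4)`) and the even `a = 2^e a'`, `1 ≤ e < E`, `a'` odd; `(3,2,5,4)` serves `a ≡ 1 (mod 8)` (`15 + a ≡ 0`), `(7,2,5,4)` serves `a ≡ 5 (mod 8)` (`35 + a ≡ 0`).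
`M` = the maximum of the three. Bad `a`: three sets of size `≤ (x/L + 1)|B| ≤ ε' x + |B|` (DEN), for each `1 ≤ e < E` at most `(x/(2^e L) + 2)|B| ≤ ε' x/2^e + 2 |B|` (DEV), and the multiples of `2^E`: at most `x/2^E + 1` (DEV with `L = 1`, `B = {0}`: `≤ x/2^E + 2`).
Total `≤ 4 ε' x + (ε/8) x + constant ≤ ε x` for `x ≥ x₀`. -/
def FIN_stmt : Prop := ∀ (k N : ℕ) (ε : ℝ), 0 < ε → ∃ M x₀ : ℕ, ∀ x ≥ x₀, ∀ y : ℤ,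
  (((Ioc y (y + x)).filter fun a : ℤ =>
    ((Ioc N M).filter fun n : ℕ => (∃ i p q : ℕ, n = 2 ^ i * (p * q) ∧ p.Prime ∧ q.Prime ∧ 2 < p ∧ p < q) ∧
      (n.totient : ℤ) ∣ (n : ℤ) + a).card < k).card : ℝ) ≤ ε * x

end

end Pool.Agent.EPT
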